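import Pool.Agent.Q127.ECC.Gain

/-!
# Counting list colourings; the case of equal lists on the clique
-/

set_option autoImplicit false

namespace Q127.ECC

open Finset

section
variable {V : Type*} [Fintype V] {C : Type*} [DecidableEq C]

open Classical in
/-- The set of proper colourings of `G` from the lists `L`. -/
noncomputable def col (G : SimpleGraph V) (L : V → Finset C) : Finset (V → C) :=
  (Fintype.piFinset L).filter fun f => ∀ u v, G.Adj u v → f u ≠ f v

theorem mem_col {G : SimpleGraph V} {L : V → Finset C} {f : V → C} :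
    f ∈ col G L ↔ (∀ v, f v ∈ L v) ∧ ∀ u v, G.Adj u v → f u ≠ f v := by
  classical
  unfold col
  rw [mem_filter, Fintype.mem_piFinset]

/-- Number of proper colourings with `j` colours. -/
noncomputable def Pj (G : SimpleGraph V) (j : ℕ) : ℕ :=
  (col G (fun _ => (univ : Finset (Fin j)))).card

theorem card_col_const (G : SimpleGraph V) (R : Finset C) :
    (col G (fun _ => R)).card = Pj G R.card := by
  classical
  symm
  unfold Pj
  let e := R.equivFin
  refine Finset.card_bij (fun f _ => fun v => (e.symm (f v)).1) ?_ ?_ ?_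
  · intro f hf
    rw [mem_col] at hf ⊢
    refine ⟨fun v => (e.symm (f v)).2, fun u v huv h => hf.2 u v huv ?_⟩
    exact e.symm.injective (Subtype.ext h)
  · intro f _ g _ h
    funext v
    exact e.symm.injective (Subtype.ext (congrFun h v))
  · intro g hg
    rw [mem_col] at hg
    refine ⟨fun v => e ⟨g v, hg.1 v⟩, ?_, ?_⟩
    · rw [mem_col]
      refine ⟨fun v => mem_univ _, fun u v huv h => hg.2 u v huv ?_⟩
      have := e.injective h
      exact congrArg Subtype.val this
    · funext v
      simp

theorem extra (G : SimpleGraph V) (R : Finset C) (M : V → Finset C) (v0 : V) (x : C)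
    (hx : x ∈ M v0) (hxR : x ∉ R)
    (h : ∀ v, R ⊆ M v ∨ Fintype.card V * R.card + 1 ≤ (M v \ R).card)
    (hcol : (col G (fun _ => R)).Nonempty) :
    (col G (fun _ => R)).card + 1 ≤ (col G M).card := by
  classical
  let I : Type _ := {v // ¬ R ⊆ M v} × {c // c ∈ R}
  have hcardI : Fintype.card I ≤ Fintype.card V * R.card := by
    rw [Fintype.card_prod]
    refine Nat.mul_le_mul (Fintype.card_subtype_le _) (le_of_eq ?_)
    rw [Fintype.card_coe]
  obtain ⟨y, hyinj, hy⟩ := (Finset.all_card_le_biUnion_card_iff_exists_injective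
    (fun i : I => (M i.1.1 \ R).erase x)).mp (by
      intro s
      rcases s.eq_empty_or_nonempty with rfl | ⟨i, hi⟩
      · simp
      · have h1 : s.card ≤ Fintype.card V * R.card :=
          (card_le_univ s).trans hcardI
        have h2 := (h i.1.1).resolve_left i.1.2
        have h3 : (M i.1.1 \ R).card - 1 ≤ ((M i.1.1 \ R).erase x).card := pred_card_le_card_erase
        have h4 : ((M i.1.1 \ R).erase x).card ≤
            (s.biUnion fun i : I => (M i.1.1 \ R).erase x).card :=
          card_le_card (subset_biUnion_of_mem (fun i : I => (M i.1.1 \ R).erase x) hi)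
        omega)
  have hyM : ∀ i, y i ∈ M i.1.1 := fun i => (mem_sdiff.mp (mem_of_mem_erase (hy i))).1
  have hyR : ∀ i, y i ∉ R := fun i => (mem_sdiff.mp (mem_of_mem_erase (hy i))).2
  have hyx : ∀ i, y i ≠ x := fun i => ne_of_mem_erase (hy i)
  let Phi : (V → C) → (V → C) := fun f v =>
    if h : (¬ R ⊆ M v) ∧ f v ∈ R then y (⟨v, h.1⟩, ⟨f v, h.2⟩) else f v
  have hPhi_near : ∀ f v, R ⊆ M v → Phi f v = f v := by
    intro f v hv
    exact dif_neg (fun h => h.1 hv)
  have hPhi_far : ∀ f v (hv : ¬ R ⊆ M v) (hf : f v ∈ R), Phi f v = y (⟨v, hv⟩, ⟨f v, hf⟩) := by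
    intro f v hv hf
    exact dif_pos ⟨hv, hf⟩
  have hmaps : ∀ f ∈ col G (fun _ => R), Phi f ∈ col G M := by
    intro f hf
    rw [mem_col] at hf ⊢
    constructor
    · intro v
      by_cases hv : R ⊆ M v
      · rw [hPhi_near f v hv]
        exact hv (hf.1 v)
      · rw [hPhi_far f v hv (hf.1 v)]
        exact hyM _
    · intro u v huv heq
      by_cases hu : R ⊆ M u
      · by_cases hv : R ⊆ M v
        · rw [hPhi_near f v hv, hPhi_near f u hu] at heq
          exact hf.2 u v huv heq
        · rw [hPhi_near f u hu, hPhi_far f v hv (hf.1 v)] at heq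
          exact hyR _ (heq ▸ hf.1 u)
      · by_cases hv : R ⊆ M v
        · rw [hPhi_near f v hv, hPhi_far f u hu (hf.1 u)] at heq
          exact hyR _ (heq ▸ hf.1 v)
        · rw [hPhi_far f u hu (hf.1 u), hPhi_far f v hv (hf.1 v)] at heq
          have h1 := hyinj heq
          rw [Prod.mk.injEq, Subtype.mk.injEq] at h1
          exact huv.ne h1.1
  have hinj : Set.InjOn Phi (col G (fun _ => R) : Finset (V → C)) := by
    intro f hf g hg hfg
    rw [mem_coe, mem_col] at hf hg
    funext v
    have h1 := congrFun hfg v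
    by_cases hv : R ⊆ M v
    · rwa [hPhi_near f v hv, hPhi_near g v hv] at h1
    · rw [hPhi_far f v hv (hf.1 v), hPhi_far g v hv (hg.1 v)] at h1
      have h2 := hyinj h1
      rw [Prod.mk.injEq, Subtype.mk.injEq, Subtype.mk.injEq] at h2
      exact h2.2
  have hnex : ∀ f ∈ col G (fun _ => R), ∀ v, Phi f v ≠ x := by
    intro f hf v
    rw [mem_col] at hf
    by_cases hv : R ⊆ M v
    · rw [hPhi_near f v hv]
      exact fun h => hxR (h ▸ hf.1 v)
    · rw [hPhi_far f v hv (hf.1 v)]
      exact hyx _
  obtain ⟨f0, hf0⟩ := hcol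
  have hext : Function.update (Phi f0) v0 x ∈ col G M := by
    have h1 := mem_col.mp (hmaps f0 hf0)
    rw [mem_col]
    constructor
    · intro v
      by_cases hv : v = v0
      · subst hv
        rw [Function.update_self]
        exact hx
      · rw [Function.update_of_ne hv]
        exact h1.1 v
    · intro u v huv
      by_cases hu : u = v0
      · subst hu
        rw [Function.update_self, Function.update_of_ne huv.ne']
        exact (hnex f0 hf0 v).symm
      · rw [Function.update_of_ne hu]
        by_cases hv : v = v0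
        · subst hv
          rw [Function.update_self]
          exact hnex f0 hf0 u
        · rw [Function.update_of_ne hv]
          exact h1.2 u v huv
  have hnot : Function.update (Phi f0) v0 x ∉ (col G (fun _ => R)).image Phi := by
    intro hmem
    rw [mem_image] at hmem
    obtain ⟨g, hg, hg2⟩ := hmem
    apply hnex g hg v0
    rw [hg2, Function.update_self]
  have h5 : insert (Function.update (Phi f0) v0 x) ((col G (fun _ => R)).image Phi) ⊆ col G M := by
    refine insert_subset hext ?_
    intro f hf
    rw [mem_image] at hf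
    obtain ⟨g, hg, rfl⟩ := hf
    exact hmaps g hg
  have h6 := card_le_card h5
  rw [card_insert_of_notMem hnot, card_image_of_injOn hinj] at h6
  exact h6

end

section
variable {C : Type*} [DecidableEq C]

theorem T_replicate (p : ℕ) (S U : Finset C) :
    T (List.replicate p S) (fun _ => 1) U = ((S \ U).card.descFactorial p : ℚ) := by
  induction p generalizing U with
  | zero => simp
  | succ p ih =>
    rw [List.replicate_succ, T_cons]
    have h1 : ∀ c ∈ S \ U, T (List.replicate p S) (fun _ => (1 : ℚ)) (insert c U)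
        = (((S \ U).card - 1).descFactorial p : ℚ) := by
      intro c hc
      rw [ih]
      have : S \ insert c U = (S \ U).erase c := by
        ext x
        simp only [mem_sdiff, mem_insert, mem_erase, not_or]
        tauto
      rw [this, card_erase_of_mem hc]
    rw [sum_congr rfl h1, sum_const, nsmul_eq_mul]
    rcases Nat.eq_zero_or_pos (S \ U).card with h0 | h0
    · rw [h0]
      simp
    · obtain ⟨M', hM'⟩ : ∃ M', (S \ U).card = M' + 1 := ⟨(S \ U).card - 1, by omega⟩
      rw [hM', Nat.succ_descFactorial_succ]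
      push_cast
      simp

theorem T_contains (ws : List (Finset C)) (x : C) (U : Finset C) (hx : x ∈ U) :
    T ws (fun W => if x ∉ W then (1 : ℚ) else 0) U = 0 := by
  induction ws generalizing U with
  | nil => simp [hx]
  | cons A ws ih =>
    rw [T_cons]
    exact sum_eq_zero fun c _ => ih _ (mem_insert_of_mem hx)

theorem T_replicate_avoid (p : ℕ) (S U : Finset C) (x : C) (hxS : x ∈ S) (hxU : x ∉ U) :
    T (List.replicate p S) (fun W => if x ∉ W then (1 : ℚ) else 0) U
      = (((S \ U).card - 1).descFactorial p : ℚ) := by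
  induction p generalizing U with
  | zero => simp [hxU]
  | succ p ih =>
    rw [List.replicate_succ, T_cons]
    have hxm : x ∈ S \ U := mem_sdiff.mpr ⟨hxS, hxU⟩
    rw [← Finset.add_sum_erase _ _ hxm, T_contains _ _ _ (mem_insert_self _ _), zero_add]
    have h1 : ∀ c ∈ (S \ U).erase x,
        T (List.replicate p S) (fun W => if x ∉ W then (1 : ℚ) else 0) (insert c U)
        = (((S \ U).card - 1 - 1).descFactorial p : ℚ) := by
      intro c hc
      rw [mem_erase] at hc
      rw [ih (insert c U) (by
        rw [mem_insert, not_or]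
        exact ⟨hc.1.symm, hxU⟩)]
      have : S \ insert c U = (S \ U).erase c := by
        ext x
        simp only [mem_sdiff, mem_insert, mem_erase, not_or]
        tauto
      rw [this, card_erase_of_mem hc.2]
    rw [sum_congr rfl h1, sum_const, nsmul_eq_mul, card_erase_of_mem hxm]
    rcases Nat.eq_zero_or_pos ((S \ U).card - 1) with h0 | h0
    · rw [h0]
      simp
    · obtain ⟨M', hM'⟩ : ∃ M', (S \ U).card - 1 = M' + 1 := ⟨(S \ U).card - 1 - 1, by omega⟩
      rw [hM', Nat.succ_descFactorial_succ]
      push_cast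
      simp

end

section
variable {V : Type*} [Fintype V] {C : Type*} [DecidableEq C]

/-- Equal lists on the clique. -/
theorem caseA (G : SimpleGraph V) (j p N : ℕ) (hN : N = p + j) (S : Finset C) (hS : S.card = N)
    (L : V → Finset C) (hL : ∀ v, (L v).card = N)
    (hbig : Fintype.card V * (Fintype.card V * j) * j * (Pj G j + 1) ≤ N) :
    (N.descFactorial p : ℚ) * Pj G j ≤
      T (List.replicate p S) (fun U => ((col G (fun v => L v \ U)).card : ℚ)) ∅ := by
  classical
  set n := Fintype.card V with hn
  rcases Nat.eq_zero_or_pos (Pj G j) with hP0 | hPpos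
  · rw [hP0, Nat.cast_zero, mul_zero]
    exact T_nonneg _ _ _ fun _ => Nat.cast_nonneg _
  have hrep : ∀ A ∈ List.replicate p S, A ⊆ S := by
    intro A hA
    rw [List.eq_of_mem_replicate hA]
  by_cases hall : ∀ v, L v = S
  · have hT : T (List.replicate p S) (fun _ => (Pj G j : ℚ)) ∅ ≤
        T (List.replicate p S) (fun U => ((col G (fun v => L v \ U)).card : ℚ)) ∅ := by
      refine T_mono _ _ _ S ∅ hrep (empty_subset _) ?_
      intro W _ hWS hWc
      rw [card_empty, zero_add, List.length_replicate] at hWc
      have h1 : (fun v => L v \ W) = fun _ => S \ W := by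
        funext v
        rw [hall v]
      rw [h1, card_col_const, card_sdiff_of_subset hWS, hS, hWc, hN, Nat.add_sub_cancel_left]
    refine le_trans (le_of_eq ?_) hT
    have h2 : T (List.replicate p S) (fun _ => (Pj G j : ℚ)) ∅
        = (Pj G j : ℚ) * T (List.replicate p S) (fun _ => 1) ∅ := by
      rw [← T_mul]
      simp
    rw [h2, T_replicate, sdiff_empty, hS]
    ring
  push Not at hall
  obtain ⟨v0, hv0⟩ := hall
  obtain ⟨x, hx, hxS⟩ : ∃ x ∈ L v0, x ∉ S := by
    by_contra hcon
    push Not at hcon
    exact hv0 (eq_of_subset_of_card_le hcon (by rw [hL, hS]))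
  have hVpos : 0 < n := by
    rw [hn]
    exact Fintype.card_pos_iff.mpr ⟨v0⟩
  -- the pairs that can make a colouring bad
  let near : Finset V := univ.filter fun v => (L v \ S).card ≤ n * j
  let B : Finset (V × C) := near.biUnion fun v => (S \ L v).image fun c => (v, c)
  have hBcard : B.card ≤ n * (n * j) := by
    refine card_biUnion_le.trans ?_
    have h1 : ∀ v ∈ near, ((S \ L v).image fun c => (v, c)).card ≤ n * j := by
      intro v hv
      refine card_image_le.trans ?_
      rw [mem_filter] at hv
      have h2 := card_sdiff_add_card_inter S (L v)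
      have h3 := card_sdiff_add_card_inter (L v) S
      rw [inter_comm] at h3
      have h4 := hL v
      omega
    refine (sum_le_sum h1).trans ?_
    rw [sum_const, smul_eq_mul]
    exact Nat.mul_le_mul_right _ (card_le_univ _)
  have hmemB : ∀ v c, (v, c) ∈ B ↔ (L v \ S).card ≤ n * j ∧ c ∈ S ∧ c ∉ L v := by
    intro v c
    simp only [B, near, mem_biUnion, mem_filter, mem_univ, true_and, mem_image, mem_sdiff,
      Prod.mk.injEq]
    constructor
    · rintro ⟨v', h1, c', h2, rfl, rfl⟩
      exact ⟨h1, h2⟩
    · rintro ⟨h1, h2⟩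
      exact ⟨v, h1, c, h2, rfl, rfl⟩
  -- pointwise lower bound
  have hpoint : ∀ W, W ⊆ S → W.card = p →
      ((Pj G j : ℚ) + 1) + (-((Pj G j : ℚ) + 1)) * ∑ b ∈ B, (if b.2 ∉ W then (1 : ℚ) else 0) ≤
        ((col G (fun v => L v \ W)).card : ℚ) := by
    intro W hWS hWc
    by_cases hbad : ∃ b ∈ B, b.2 ∉ W
    · obtain ⟨b, hb, hbW⟩ := hbad
      have h1 : (1 : ℚ) ≤ ∑ b ∈ B, (if b.2 ∉ W then (1 : ℚ) else 0) := by
        have h2 : (if b.2 ∉ W then (1 : ℚ) else 0) ≤
            ∑ b ∈ B, (if b.2 ∉ W then (1 : ℚ) else 0) :=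
          single_le_sum (f := fun b : V × C => if b.2 ∉ W then (1 : ℚ) else 0)
            (fun i _ => by split_ifs <;> norm_num) hb
        rwa [if_pos hbW] at h2
      have h3 : (0 : ℚ) ≤ ((col G (fun v => L v \ W)).card : ℚ) := Nat.cast_nonneg _
      have h4 : (0 : ℚ) ≤ Pj G j := Nat.cast_nonneg _
      nlinarith
    · push Not at hbad
      have h0 : ∑ b ∈ B, (if b.2 ∉ W then (1 : ℚ) else 0) = 0 := by
        refine sum_eq_zero fun b hb => ?_
        rw [if_neg]
        exact not_not.mpr (hbad b hb)
      rw [h0, mul_zero, add_zero]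
      have hRc : (S \ W).card = j := by
        rw [card_sdiff_of_subset hWS, hS, hWc, hN, Nat.add_sub_cancel_left]
      have h1 := extra G (S \ W) (fun v => L v \ W) v0 x
        (mem_sdiff.mpr ⟨hx, fun h => hxS (hWS h)⟩) (fun h => hxS (mem_sdiff.mp h).1) ?_ ?_
      · rw [card_col_const, hRc] at h1
        exact_mod_cast h1
      · intro v
        rw [hRc, ← hn]
        by_cases hv : (L v \ S).card ≤ n * j
        · left
          intro c hc
          rw [mem_sdiff] at hc ⊢
          refine ⟨?_, hc.2⟩
          by_contra hcL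
          exact hc.2 (hbad (v, c) ((hmemB v c).mpr ⟨hv, hc.1, hcL⟩))
        · right
          push Not at hv
          have h2 : L v \ S ⊆ (L v \ W) \ (S \ W) := by
            intro c hc
            rw [mem_sdiff] at hc
            rw [mem_sdiff, mem_sdiff, mem_sdiff]
            exact ⟨⟨hc.1, fun h => hc.2 (hWS h)⟩, fun h => hc.2 h.1⟩
          have := card_le_card h2
          omega
      · rw [← card_pos, card_col_const, hRc]
        exact hPpos
  have hT := T_mono (List.replicate p S) (fun W => ((Pj G j : ℚ) + 1) +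
      (-((Pj G j : ℚ) + 1)) * ∑ b ∈ B, (if b.2 ∉ W then (1 : ℚ) else 0))
      (fun U => ((col G (fun v => L v \ U)).card : ℚ)) S ∅ hrep (empty_subset _) (by
        intro W _ hWS hWc
        rw [card_empty, zero_add, List.length_replicate] at hWc
        exact hpoint W hWS hWc)
  refine le_trans ?_ hT
  rw [T_add, T_mul, T_sum]
  have h1 : T (List.replicate p S) (fun _ => (Pj G j : ℚ) + 1) ∅
      = ((Pj G j : ℚ) + 1) * (N.descFactorial p : ℚ) := by
    have := T_mul (List.replicate p S) ((Pj G j : ℚ) + 1) (fun _ => 1) ∅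
    rw [T_replicate, sdiff_empty, hS] at this
    rw [← this]
    simp
  have h2 : ∀ b ∈ B, T (List.replicate p S) (fun W => if b.2 ∉ W then (1 : ℚ) else 0) ∅
      = ((N - 1).descFactorial p : ℚ) := by
    intro b hb
    have hb' : (b.1, b.2) ∈ B := hb
    rw [hmemB] at hb'
    have := T_replicate_avoid p S ∅ b.2 hb'.2.1 (notMem_empty _)
    rw [this, sdiff_empty, hS]
  rw [h1, sum_congr rfl h2, sum_const, nsmul_eq_mul]
  -- numerical estimate
  have hNpos : 0 < N := by
    rw [← hS]
    have h3 : 0 < (L v0).card := card_pos.mpr ⟨x, hx⟩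
    rw [hL] at h3
    omega
  have hNq : (0 : ℚ) < N := by exact_mod_cast hNpos
  have h3 : (N : ℚ) * ((N - 1).descFactorial p : ℚ) = (j : ℚ) * (N.descFactorial p : ℚ) := by
    obtain ⟨N', hN'⟩ : ∃ N', N = N' + 1 := ⟨N - 1, by omega⟩
    have h4 : (N' + 1) * N'.descFactorial p = j * (N' + 1).descFactorial p := by
      rw [← Nat.succ_descFactorial_succ, Nat.descFactorial_succ]
      congr 1
      omega
    rw [hN', Nat.add_sub_cancel]
    exact_mod_cast h4
  have h4 : ((N - 1).descFactorial p : ℚ) = (j : ℚ) * (N.descFactorial p : ℚ) / N := by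
    field_simp
    linarith
  rw [h4]
  have h5 : (B.card : ℚ) * j * ((Pj G j : ℚ) + 1) ≤ N := by
    have h6 : B.card * j * (Pj G j + 1) ≤ N :=
      le_trans (Nat.mul_le_mul_right _ (Nat.mul_le_mul_right _ hBcard)) hbig
    exact_mod_cast h6
  have hD : (0 : ℚ) ≤ (N.descFactorial p : ℚ) := Nat.cast_nonneg _
  have h7 : ((Pj G j : ℚ) + 1) * ((B.card : ℚ) * ((j : ℚ) * (N.descFactorial p : ℚ) / N)) ≤
      (N.descFactorial p : ℚ) := by
    have : ((Pj G j : ℚ) + 1) * ((B.card : ℚ) * ((j : ℚ) * (N.descFactorial p : ℚ) / N))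
        = ((B.card : ℚ) * j * ((Pj G j : ℚ) + 1)) / N * (N.descFactorial p : ℚ) := by
      ring
    rw [this]
    have h8 : ((B.card : ℚ) * j * ((Pj G j : ℚ) + 1)) / N ≤ 1 := by
      rw [div_le_one hNq]
      exact h5
    calc _ ≤ 1 * (N.descFactorial p : ℚ) := mul_le_mul_of_nonneg_right h8 hD
      _ = _ := one_mul _
  linarith

end

end Q127.ECC
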