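import Mathlib

/-!
# The list color function and joins: definitions
-/

set_option autoImplicit false

namespace Q127.ECC

/-- The join of two graphs: their disjoint union plus all edges between them. -/
def join {V W : Type*} (G : SimpleGraph V) (H : SimpleGraph W) : SimpleGraph (V ⊕ W) :=
  (G ⊕g H) ⊔ completeBipartiteGraph V W

/-- `P(G, L)`: the number of proper `L`-colourings of `G`. -/
noncomputable def numListCol {V : Type*} (G : SimpleGraph V) (L : V → Finset ℕ) : ℕ :=
  Nat.card {f : V → ℕ // (∀ v, f v ∈ L v) ∧ ∀ u v, G.Adj u v → f u ≠ f v}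

/-- `P(G, m)`: the number of proper `m`-colourings of `G`. -/
noncomputable def numCol {V : Type*} (G : SimpleGraph V) (m : ℕ) : ℕ :=
  Nat.card (G.Coloring (Fin m))

/-- The list color function: the minimum of `P(G, L)` over all `m`-assignments `L`. -/
noncomputable def listColorFunction {V : Type*} (G : SimpleGraph V) (m : ℕ) : ℕ :=
  sInf {k | ∃ L : V → Finset ℕ, (∀ v, (L v).card = m) ∧ numListCol G L = k}

/-- `G` is enumeratively chromatic-choosable: the list color function equals `P(G, m)` for every
`m ≥ 1` with `m ≥ χ(G)`. -/
def EnumChromChoosable {V : Type*} (G : SimpleGraph V) : Prop :=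
  ∀ m : ℕ, 1 ≤ m → G.chromaticNumber ≤ m → listColorFunction G m = numCol G m

end Q127.ECC
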