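import Pool.Agent.Q127.ECC.Col

/-!
# Donner's theorem: for large lists the constant lists minimise the number of colourings
-/

set_option autoImplicit false

namespace Q127.ECC

open Finset

section
variable {V : Type*} [Fintype V] {C : Type*} [DecidableEq C]

/-- `f` is constant on the pair `e`. -/
def Mono (f : V → C) (e : Sym2 V) : Prop := (e.map f).IsDiag

theorem mono_mk (f : V → C) (u v : V) : Mono f s(u, v) ↔ f u = f v := by
  unfold Mono
  rw [Sym2.map_mk, Sym2.mk_isDiag_iff]

open Classical in
/-- Functions in the product of the lists constant on every pair in `A`. -/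
noncomputable def FA (L : V → Finset C) (A : Finset (Sym2 V)) : Finset (V → C) :=
  (Fintype.piFinset L).filter fun f => ∀ e ∈ A, Mono f e

open Classical in
theorem card_col_eq_sum (G : SimpleGraph V) (L : V → Finset C) :
    ((col G L).card : ℚ) = ∑ A ∈ G.edgeFinset.powerset, (-1 : ℚ) ^ A.card * ((FA L A).card : ℚ) := by
  have h1 : ∀ f : V → C, (if (∀ u v, G.Adj u v → f u ≠ f v) then (1 : ℚ) else 0)
      = ∑ A ∈ G.edgeFinset.powerset, (-1 : ℚ) ^ A.card *
        (if ∀ e ∈ A, Mono f e then (1 : ℚ) else 0) := by
    intro f
    have h2 : (if (∀ u v, G.Adj u v → f u ≠ f v) then (1 : ℚ) else 0)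
        = ∏ e ∈ G.edgeFinset, ((if Mono f e then (-1 : ℚ) else 0) + 1) := by
      by_cases h : ∀ u v, G.Adj u v → f u ≠ f v
      · rw [if_pos h]
        symm
        refine prod_eq_one fun e he => ?_
        rw [if_neg, zero_add]
        induction e with
        | h u v =>
          rw [mono_mk]
          exact h u v (by simpa using he)
      · rw [if_neg h]
        symm
        push Not at h
        obtain ⟨u, v, huv, hf⟩ := h
        refine prod_eq_zero (i := s(u, v)) (by simpa using huv) ?_
        rw [if_pos ((mono_mk f u v).mpr hf)]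
        norm_num
    rw [h2, Finset.prod_add]
    refine sum_congr rfl fun A _ => ?_
    rw [prod_const_one, mul_one]
    by_cases hA : ∀ e ∈ A, Mono f e
    · rw [if_pos hA, mul_one, prod_congr rfl (fun e he => if_pos (hA e he)), prod_const]
    · rw [if_neg hA, mul_zero]
      push Not at hA
      obtain ⟨e, he, hfe⟩ := hA
      exact prod_eq_zero he (if_neg hfe)
  unfold col FA
  rw [card_filter]
  push_cast
  rw [sum_congr rfl fun f _ => h1 f, sum_comm]
  refine sum_congr rfl fun A _ => ?_
  rw [← mul_sum, card_filter]
  push_cast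
  rfl

/-- The auxiliary graph on the edge set `A`. -/
abbrev HA (A : Finset (Sym2 V)) : SimpleGraph V := SimpleGraph.fromEdgeSet (A : Set (Sym2 V))

theorem mono_reachable {A : Finset (Sym2 V)} {f : V → C} (hf : ∀ e ∈ A, Mono f e) {u v : V}
    (h : (HA A).Reachable u v) : f u = f v := by
  obtain ⟨w⟩ := h
  induction w with
  | nil => rfl
  | cons hadj _ ih =>
    rw [SimpleGraph.fromEdgeSet_adj] at hadj
    rw [← ih]
    exact (mono_mk f _ _).mp (hf _ hadj.1)

open Classical in
/-- Colours common to the lists of a component. -/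
noncomputable def bet (L : V → Finset C) (A : Finset (Sym2 V)) (D : (HA A).ConnectedComponent) :
    Finset C :=
  (L D.out).filter fun c => ∀ v, (HA A).connectedComponentMk v = D → c ∈ L v

open Classical in
theorem card_FA (L : V → Finset C) (A : Finset (Sym2 V)) :
    (FA L A).card = ∏ D : (HA A).ConnectedComponent, (bet L A D).card := by
  rw [← Fintype.card_piFinset]
  refine Finset.card_bij' (fun f _ => fun D => f D.out)
    (fun h _ => fun v => h ((HA A).connectedComponentMk v)) ?_ ?_ ?_ ?_
  · intro f hf
    unfold FA at hf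
    rw [mem_filter, Fintype.mem_piFinset] at hf
    rw [Fintype.mem_piFinset]
    intro D
    unfold bet
    rw [mem_filter]
    refine ⟨hf.1 _, fun v hv => ?_⟩
    have h1 : (HA A).connectedComponentMk D.out = (HA A).connectedComponentMk v := by
      rw [hv]
      exact D.out_eq
    have h2 : (HA A).Reachable D.out v := SimpleGraph.ConnectedComponent.eq.mp h1
    rw [mono_reachable hf.2 h2]
    exact hf.1 v
  · intro h hh
    rw [Fintype.mem_piFinset] at hh
    unfold FA
    rw [mem_filter, Fintype.mem_piFinset]
    constructor
    · intro v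
      have := hh ((HA A).connectedComponentMk v)
      unfold bet at this
      rw [mem_filter] at this
      exact this.2 v rfl
    · intro e he
      induction e with
      | h u v =>
        rw [mono_mk]
        by_cases huv : u = v
        · rw [huv]
        · have h1 : (HA A).Adj u v := by
            rw [SimpleGraph.fromEdgeSet_adj]
            exact ⟨he, huv⟩
          have : (HA A).connectedComponentMk u = (HA A).connectedComponentMk v :=
            SimpleGraph.ConnectedComponent.eq.mpr h1.reachable
          simp only [this]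
  · intro f hf
    unfold FA at hf
    rw [mem_filter, Fintype.mem_piFinset] at hf
    funext v
    have h1 : (HA A).connectedComponentMk ((HA A).connectedComponentMk v).out
        = (HA A).connectedComponentMk v := Quot.out_eq _
    exact mono_reachable hf.2 (SimpleGraph.ConnectedComponent.eq.mp h1)
  · intro h _
    funext D
    have h1 : (HA A).connectedComponentMk D.out = D := D.out_eq
    dsimp only
    rw [h1]

/-- The size of the symmetric difference of the lists of the two ends. -/
def del (L : V → Finset C) : Sym2 V → ℕ :=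
  Sym2.lift ⟨fun x y => (L x \ L y).card + (L y \ L x).card, fun _ _ => add_comm _ _⟩

theorem del_mk (L : V → Finset C) (x y : V) :
    del L s(x, y) = (L x \ L y).card + (L y \ L x).card := rfl

open Classical in
theorem bet_card (L : V → Finset C) (j : ℕ) (hL : ∀ v, (L v).card = j) (A : Finset (Sym2 V))
    (D : (HA A).ConnectedComponent) :
    (bet L A D).card ≤ j ∧ j ≤ (bet L A D).card + ∑ e ∈ A, del L e := by
  constructor
  · rw [← hL D.out]
    exact card_le_card (filter_subset _ _)
  · let sd : Sym2 V → Finset C :=
      Sym2.lift ⟨fun x y => (L x \ L y) ∪ (L y \ L x), fun _ _ => union_comm _ _⟩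
    have hsd : ∀ x y, sd s(x, y) = (L x \ L y) ∪ (L y \ L x) := fun _ _ => rfl
    have hsdc : ∀ e, (sd e).card ≤ del L e := by
      intro e
      induction e with
      | h x y => exact card_union_le _ _
    have hsub : L D.out \ bet L A D ⊆ A.biUnion sd := by
      intro c hc
      rw [mem_sdiff] at hc
      unfold bet at hc
      rw [mem_filter, not_and] at hc
      have h1 := hc.2 hc.1
      push Not at h1
      obtain ⟨v, hv, hcv⟩ := h1
      by_contra hcon
      -- the colour is never lost along a walk
      have h2 : ∀ {x y : V}, (HA A).Reachable x y → c ∈ L x → c ∈ L y := by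
        intro x y hxy
        obtain ⟨w⟩ := hxy
        induction w with
        | nil => exact id
        | @cons a b z hadj _ ih =>
          intro ha
          apply ih
          by_contra hb
          rw [SimpleGraph.fromEdgeSet_adj] at hadj
          apply hcon
          rw [mem_biUnion]
          refine ⟨s(a, b), hadj.1, ?_⟩
          rw [hsd, mem_union, mem_sdiff]
          exact Or.inl ⟨ha, hb⟩
      have h3 : (HA A).connectedComponentMk D.out = (HA A).connectedComponentMk v := by
        rw [hv]
        exact D.out_eq
      exact hcv (h2 (SimpleGraph.ConnectedComponent.eq.mp h3) hc.1)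
    have h4 := (card_le_card hsub).trans (card_biUnion_le.trans (sum_le_sum fun e _ => hsdc e))
    have h5 : (L D.out \ bet L A D).card + (bet L A D).card = (L D.out).card :=
      card_sdiff_add_card_eq_card (filter_subset _ _)
    rw [hL] at h5
    omega

/-- An elementary product estimate. -/
theorem prod_estimate {ι : Type*} (s : Finset ι) (b : ι → ℚ) (j d : ℚ) (hd : 0 ≤ d)
    (hb : ∀ i ∈ s, 0 ≤ b i ∧ b i ≤ j ∧ j ≤ b i + d) :
    0 ≤ ∏ i ∈ s, b i ∧ ∏ i ∈ s, b i ≤ j ^ s.card ∧
      j * (j ^ s.card - ∏ i ∈ s, b i) ≤ s.card * d * j ^ s.card := by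
  classical
  induction s using Finset.induction_on with
  | empty => simp
  | insert a s ha ih =>
    obtain ⟨h1, h2, h3⟩ := ih (fun i hi => hb i (mem_insert_of_mem hi))
    obtain ⟨b1, b2, b3⟩ := hb a (mem_insert_self _ _)
    have hj : 0 ≤ j := b1.trans b2
    rw [prod_insert ha, card_insert_of_notMem ha, pow_succ]
    push_cast
    have hjp : 0 ≤ j ^ s.card := pow_nonneg hj _
    refine ⟨mul_nonneg b1 h1, ?_, ?_⟩
    · nlinarith
    · have e1 : j * (j ^ s.card * j - b a * ∏ i ∈ s, b i)
          = j * (j ^ s.card - ∏ i ∈ s, b i) * j + j * ((j - b a) * ∏ i ∈ s, b i) := by ring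
      rw [e1]
      have e2 : (j - b a) * ∏ i ∈ s, b i ≤ d * j ^ s.card := by
        refine mul_le_mul (by linarith) h2 h1 hd
      have e3 := mul_le_mul_of_nonneg_left e2 hj
      have e4 := mul_le_mul_of_nonneg_right h3 hj
      nlinarith

theorem other_of_ne {e e' : Sym2 V} (hne : e ≠ e') (he : ¬ e.IsDiag) (he' : ¬ e'.IsDiag) :
    ∃ x x', e = s(x, x') ∧ x ≠ x' ∧ x ∉ e' := by
  induction e with
  | h a b =>
    rw [Sym2.mk_isDiag_iff] at he
    by_cases ha : a ∈ e'
    · by_cases hb : b ∈ e'
      · exfalso
        exact hne ((Sym2.mem_and_mem_iff he).mp ⟨ha, hb⟩).symm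
      · exact ⟨b, a, Sym2.eq_swap, fun h => he h.symm, hb⟩
    · exact ⟨a, b, rfl, he, ha⟩

open Classical in
theorem comp_card (A : Finset (Sym2 V)) (hA : ∀ e ∈ A, ¬ e.IsDiag) (h2 : 2 ≤ A.card) :
    Fintype.card (HA A).ConnectedComponent + 2 ≤ Fintype.card V := by
  obtain ⟨e, he, e', he', hne⟩ := Finset.one_lt_card.mp h2
  obtain ⟨x, x', hx, hxx, hxe⟩ := other_of_ne hne (hA e he) (hA e' he')
  obtain ⟨y, y', hy, hyy, hye⟩ := other_of_ne hne.symm (hA e' he') (hA e he)
  have hxmem : x ∈ e := by rw [hx]; exact Sym2.mem_mk_left _ _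
  have hx'mem : x' ∈ e := by rw [hx]; exact Sym2.mem_mk_right _ _
  have hymem : y ∈ e' := by rw [hy]; exact Sym2.mem_mk_left _ _
  have hy'mem : y' ∈ e' := by rw [hy]; exact Sym2.mem_mk_right _ _
  have hxy : x ≠ y := fun h => hye (h ▸ hxmem)
  have hx'y : x' ≠ y := fun h => hye (h ▸ hx'mem)
  have hy'x : y' ≠ x := fun h => hxe (h ▸ hy'mem)
  have ax : (HA A).Adj x x' := by
    rw [SimpleGraph.fromEdgeSet_adj]
    exact ⟨hx ▸ he, hxx⟩
  have ay : (HA A).Adj y y' := by
    rw [SimpleGraph.fromEdgeSet_adj]
    exact ⟨hy ▸ he', hyy⟩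
  have hsurj : (univ : Finset (HA A).ConnectedComponent) ⊆
      (univ \ {x, y} : Finset V).image (HA A).connectedComponentMk := by
    intro D _
    obtain ⟨v, rfl⟩ : ∃ v, (HA A).connectedComponentMk v = D := D.exists_rep
    rw [mem_image]
    by_cases hvx : v = x
    · refine ⟨x', ?_, ?_⟩
      · simp only [mem_sdiff, mem_univ, true_and, mem_insert, mem_singleton, not_or]
        exact ⟨hxx.symm, hx'y⟩
      · rw [hvx]
        exact SimpleGraph.ConnectedComponent.eq.mpr ax.symm.reachable
    · by_cases hvy : v = y
      · refine ⟨y', ?_, ?_⟩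
        · simp only [mem_sdiff, mem_univ, true_and, mem_insert, mem_singleton, not_or]
          exact ⟨hy'x, hyy.symm⟩
        · rw [hvy]
          exact SimpleGraph.ConnectedComponent.eq.mpr ay.symm.reachable
      · refine ⟨v, ?_, rfl⟩
        simp only [mem_sdiff, mem_univ, true_and, mem_insert, mem_singleton, not_or]
        exact ⟨hvx, hvy⟩
  have h3 := (card_le_card hsurj).trans card_image_le
  rw [card_univ, card_sdiff_of_subset (subset_univ _), card_univ, card_pair hxy] at h3
  have h4 : 2 ≤ Fintype.card V := by
    have := card_le_univ ({x, y} : Finset V)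
    rwa [card_pair hxy] at this
  omega

open Classical in
theorem card_FA_single (L : V → Finset C) (j : ℕ) (hj : 0 < j) (hL : ∀ v, (L v).card = j)
    {u v : V} (huv : u ≠ v) :
    (FA L {s(u, v)}).card = (L u ∩ L v).card * j ^ (Fintype.card V - 2) := by
  obtain ⟨c0, _⟩ : (L u).Nonempty := by
    rw [← card_pos, hL]
    exact hj
  let L' : V → Finset C := Function.update (Function.update L u (L u ∩ L v)) v {c0}
  have hL'u : L' u = L u ∩ L v := by
    simp only [L']
    rw [Function.update_of_ne huv, Function.update_self]
  have hL'v : L' v = {c0} := by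
    simp only [L']
    rw [Function.update_self]
  have hL'w : ∀ w, w ≠ u → w ≠ v → L' w = L w := by
    intro w h1 h2
    simp only [L']
    rw [Function.update_of_ne h2, Function.update_of_ne h1]
  have h1 : (FA L {s(u, v)}).card = (Fintype.piFinset L').card := by
    refine Finset.card_bij' (fun f _ => Function.update f v c0)
      (fun g _ => Function.update g v (g u)) ?_ ?_ ?_ ?_
    · intro f hf
      unfold FA at hf
      rw [mem_filter, Fintype.mem_piFinset] at hf
      obtain ⟨hf1, hf2⟩ := hf
      have hf3 : f u = f v := (mono_mk f u v).mp (hf2 _ (mem_singleton_self _))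
      rw [Fintype.mem_piFinset]
      intro w
      by_cases hwv : w = v
      · subst hwv
        rw [Function.update_self, hL'v]
        exact mem_singleton_self _
      · rw [Function.update_of_ne hwv]
        by_cases hwu : w = u
        · subst hwu
          rw [hL'u, mem_inter]
          exact ⟨hf1 _, hf3 ▸ hf1 v⟩
        · rw [hL'w w hwu hwv]
          exact hf1 w
    · intro g hg
      rw [Fintype.mem_piFinset] at hg
      unfold FA
      rw [mem_filter, Fintype.mem_piFinset]
      have hgu := hg u
      rw [hL'u, mem_inter] at hgu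
      constructor
      · intro w
        by_cases hwv : w = v
        · subst hwv
          rw [Function.update_self]
          exact hgu.2
        · rw [Function.update_of_ne hwv]
          by_cases hwu : w = u
          · subst hwu
            exact hgu.1
          · have := hg w
            rwa [hL'w w hwu hwv] at this
      · intro e he
        rw [mem_singleton] at he
        rw [he, mono_mk, Function.update_self, Function.update_of_ne huv]
    · intro f hf
      unfold FA at hf
      rw [mem_filter, Fintype.mem_piFinset] at hf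
      have hf3 : f u = f v := (mono_mk f u v).mp (hf.2 _ (mem_singleton_self _))
      funext w
      by_cases hwv : w = v
      · subst hwv
        simp [Function.update_of_ne huv, hf3]
      · simp [Function.update_of_ne hwv]
    · intro g hg
      rw [Fintype.mem_piFinset] at hg
      have hgv := hg v
      rw [hL'v, mem_singleton] at hgv
      funext w
      by_cases hwv : w = v
      · subst hwv
        simp [hgv]
      · simp [Function.update_of_ne hwv]
  rw [h1, Fintype.card_piFinset, ← mul_prod_erase univ _ (mem_univ u),
    ← mul_prod_erase (univ.erase u) _ (mem_erase.mpr ⟨huv.symm, mem_univ v⟩), hL'u, hL'v,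
    card_singleton, one_mul]
  congr 1
  rw [prod_congr rfl (g := fun _ => j)]
  · rw [prod_const, card_erase_of_mem (mem_erase.mpr ⟨huv.symm, mem_univ v⟩),
      card_erase_of_mem (mem_univ u), card_univ]
    rfl
  · intro w hw
    rw [mem_erase, mem_erase] at hw
    rw [hL'w w hw.2.1 hw.1, hL]

open Classical in
/-- Donner's theorem, with an explicit bound. -/
theorem donner [Nonempty V] (G : SimpleGraph V) (j : ℕ)
    (hj : 2 * Fintype.card V * 2 ^ G.edgeFinset.card ≤ j) (L : V → Finset C)
    (hL : ∀ v, (L v).card = j) : Pj G j ≤ (col G L).card := by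
  set n := Fintype.card V with hn
  have hnpos : 0 < n := Fintype.card_pos
  have hjpos : 0 < j := lt_of_lt_of_le (by positivity) hj
  have hjq : (0 : ℚ) < j := by exact_mod_cast hjpos
  set E := G.edgeFinset with hE
  set Del : ℚ := ∑ e ∈ E, (del L e : ℚ) with hDel
  have hDel0 : 0 ≤ Del := sum_nonneg fun e _ => Nat.cast_nonneg _
  -- the two families of counts
  have hX := card_col_eq_sum G L
  have hY := card_col_eq_sum G (fun _ => (univ : Finset (Fin j)))
  set X : Finset (Sym2 V) → ℚ := fun A => ((FA L A).card : ℚ) with hXdef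
  set Y : Finset (Sym2 V) → ℚ := fun A => ((FA (fun _ : V => (univ : Finset (Fin j))) A).card : ℚ)
    with hYdef
  have hYval : ∀ A, Y A = (j : ℚ) ^ Fintype.card (HA A).ConnectedComponent := by
    intro A
    simp only [hYdef]
    rw [card_FA]
    have : ∀ D : (HA A).ConnectedComponent,
        (bet (fun _ : V => (univ : Finset (Fin j))) A D).card = j := by
      intro D
      unfold bet
      simp
    rw [prod_congr rfl fun D _ => this D, prod_const, card_univ]
    push_cast
    rfl
  have hest : ∀ A ∈ E.powerset, 0 ≤ X A ∧ X A ≤ Y A ∧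
      j * (Y A - X A) ≤ Fintype.card (HA A).ConnectedComponent * Del *
        (j : ℚ) ^ Fintype.card (HA A).ConnectedComponent := by
    intro A hA
    rw [mem_powerset] at hA
    rw [hYval]
    simp only [hXdef]
    rw [card_FA]
    push_cast
    refine prod_estimate univ (fun D => ((bet L A D).card : ℚ)) j Del hDel0 ?_
    intro D _
    have h1 := bet_card L j hL A D
    refine ⟨Nat.cast_nonneg _, by exact_mod_cast h1.1, ?_⟩
    have h2 : (j : ℚ) ≤ (bet L A D).card + ∑ e ∈ A, (del L e : ℚ) := by exact_mod_cast h1.2
    have h3 : ∑ e ∈ A, (del L e : ℚ) ≤ Del :=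
      sum_le_sum_of_subset_of_nonneg hA fun e _ _ => Nat.cast_nonneg _
    linarith
  -- single edges
  have hsingle : ∀ e ∈ E, j * (Y {e} - X {e}) = (j : ℚ) ^ (n - 2) * (j * (del L e : ℚ) / 2) := by
    intro e he
    induction e with
    | h u v =>
      have huv : u ≠ v := by
        have : G.Adj u v := by simpa [hE] using he
        exact this.ne
      simp only [hXdef, hYdef]
      rw [card_FA_single L j hjpos hL huv,
        card_FA_single (fun _ : V => (univ : Finset (Fin j))) j hjpos (by simp) huv, del_mk]
      have h1 := card_sdiff_add_card_inter (L u) (L v)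
      have h2 := card_sdiff_add_card_inter (L v) (L u)
      rw [inter_comm] at h2
      rw [hL] at h1 h2
      have h1q : ((L u \ L v).card : ℚ) + ((L u ∩ L v).card : ℚ) = j := by exact_mod_cast h1
      have h2q : ((L v \ L u).card : ℚ) + ((L u ∩ L v).card : ℚ) = j := by exact_mod_cast h2
      have h3 : ((univ : Finset (Fin j)) ∩ univ).card = j := by simp
      rw [h3]
      push_cast
      have h4 : ((L u \ L v).card : ℚ) = j - ((L u ∩ L v).card : ℚ) := by linarith
      have h5 : ((L v \ L u).card : ℚ) = j - ((L u ∩ L v).card : ℚ) := by linarith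
      rw [h4, h5]
      ring
  -- the pointwise bound
  have hpt : ∀ A ∈ E.powerset, (if A.card = 1 then j * (Y A - X A) else 0) -
      n * Del * (j : ℚ) ^ (n - 2) ≤ j * ((-1 : ℚ) ^ A.card * (X A - Y A)) := by
    intro A hA
    obtain ⟨h1, h2, h3⟩ := hest A hA
    have h0 : 0 ≤ n * Del * (j : ℚ) ^ (n - 2) := by positivity
    rcases Nat.lt_or_ge A.card 2 with hc | hc
    · interval_cases hAc : A.card
      · rw [card_eq_zero] at hAc
        subst hAc
        have h4 : X ∅ = Y ∅ := by
          simp only [hXdef, hYdef]
          unfold FA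
          simp [Fintype.card_piFinset, hL]
        rw [h4]
        simp only [zero_ne_one, if_false]
        linarith
      · simp only [if_true]
        linarith
    · have hc1 : A.card ≠ 1 := by omega
      rw [if_neg hc1]
      have h5 := comp_card A (by
        intro e he
        have h6 : e ∈ G.edgeFinset := (mem_powerset.mp hA) he
        rw [SimpleGraph.mem_edgeFinset] at h6
        exact G.not_isDiag_of_mem_edgeSet h6) hc
      rw [← hn] at h5
      have h6 : (Fintype.card (HA A).ConnectedComponent : ℚ) * Del *
          (j : ℚ) ^ Fintype.card (HA A).ConnectedComponent ≤ n * Del * (j : ℚ) ^ (n - 2) := by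
        have h7 : (Fintype.card (HA A).ConnectedComponent : ℚ) ≤ n := by
          have : Fintype.card (HA A).ConnectedComponent ≤ n := by omega
          exact_mod_cast this
        have h8 : (j : ℚ) ^ Fintype.card (HA A).ConnectedComponent ≤ (j : ℚ) ^ (n - 2) := by
          refine pow_le_pow_right₀ ?_ (by omega)
          exact_mod_cast hjpos
        exact mul_le_mul (mul_le_mul_of_nonneg_right h7 hDel0) h8 (by positivity) (by positivity)
      have h9 : 0 ≤ (j : ℚ) * (Y A - X A) := mul_nonneg hjq.le (by linarith)
      rcases neg_one_pow_eq_or ℚ A.card with h10 | h10 <;> rw [h10] <;> nlinarith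
  have hsum := sum_le_sum hpt
  rw [← mul_sum] at hsum
  have hdiff : ∑ A ∈ E.powerset, (-1 : ℚ) ^ A.card * (X A - Y A)
      = ((col G L).card : ℚ) - (Pj G j : ℚ) := by
    unfold Pj
    rw [hX, hY, ← sum_sub_distrib]
    exact sum_congr rfl fun A _ => by ring
  rw [hdiff, sum_sub_distrib, sum_const, card_powerset, nsmul_eq_mul] at hsum
  have hlow : (j : ℚ) ^ (n - 2) * (j * Del / 2) ≤
      ∑ A ∈ E.powerset, (if A.card = 1 then j * (Y A - X A) else 0) := by
    have h1 : E.image (fun e => ({e} : Finset (Sym2 V))) ⊆ E.powerset := by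
      intro A hA
      rw [mem_image] at hA
      obtain ⟨e, he, rfl⟩ := hA
      rw [mem_powerset, singleton_subset_iff]
      exact he
    have h2 : ∑ A ∈ E.image (fun e => ({e} : Finset (Sym2 V))),
        (if A.card = 1 then j * (Y A - X A) else 0) ≤
        ∑ A ∈ E.powerset, (if A.card = 1 then j * (Y A - X A) else 0) := by
      refine sum_le_sum_of_subset_of_nonneg h1 fun A hA _ => ?_
      split_ifs
      · exact mul_nonneg hjq.le (by linarith [(hest A hA).2.1])
      · exact le_rfl
    refine le_trans (le_of_eq ?_) h2
    rw [sum_image (fun e _ e' _ h => singleton_injective h)]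
    simp only [card_singleton, if_true]
    rw [sum_congr rfl hsingle, ← mul_sum, hDel, mul_sum, sum_div]
  have hj' : 2 * (n : ℚ) * 2 ^ E.card ≤ j := by exact_mod_cast hj
  have hfinal : 0 ≤ (j : ℚ) * (((col G L).card : ℚ) - (Pj G j : ℚ)) := by
    have h1 : ((2 ^ E.card : ℕ) : ℚ) * (n * Del * (j : ℚ) ^ (n - 2)) ≤
        (j : ℚ) ^ (n - 2) * (j * Del / 2) := by
      have h2 : 0 ≤ (j : ℚ) ^ (n - 2) * Del := by positivity
      have h3 := mul_le_mul_of_nonneg_left hj' h2
      push_cast
      nlinarith
    linarith
  have h4 : 0 ≤ ((col G L).card : ℚ) - (Pj G j : ℚ) := by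
    by_contra hcon
    push Not at hcon
    have := mul_neg_of_pos_of_neg hjq hcon
    linarith
  have h5 : (Pj G j : ℚ) ≤ ((col G L).card : ℚ) := by linarith
  exact_mod_cast h5

end

end Q127.ECC
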