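import Pool.Agent.Q127.ECC.MainJ
import Pool.Agent.Q127.ECC.Donner

/-!
# Joins with large cliques are enumeratively chromatic-choosable
-/

set_option autoImplicit false

namespace Q127.ECC

open Finset

section
variable {V : Type*} [Fintype V]

theorem numListCol_eq (G : SimpleGraph V) (L : V → Finset ℕ) :
    numListCol G L = (col G L).card := by
  unfold numListCol
  exact Nat.subtype_card _ fun f => mem_col

theorem numCol_eq (G : SimpleGraph V) (m : ℕ) : numCol G m = Pj G m := by
  classical
  unfold numCol Pj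
  have h1 : Nat.card (G.Coloring (Fin m))
      = Nat.card {f : V → Fin m // ∀ u v, G.Adj u v → f u ≠ f v} :=
    Nat.card_congr
      { toFun := fun c => ⟨c, fun u v h => c.valid h⟩
        invFun := fun f => SimpleGraph.Coloring.mk f.1 (fun {u v} h => f.2 u v h)
        left_inv := fun c => by ext; rfl
        right_inv := fun f => by ext; rfl }
  rw [h1]
  refine Nat.subtype_card _ fun f => ?_
  rw [mem_col]
  exact ⟨fun h => h.2, fun h => ⟨fun v => mem_univ _, h⟩⟩

theorem col_subset {C : Type*} [DecidableEq C] (G : SimpleGraph V) {L L' : V → Finset C}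
    (h : ∀ v, L v ⊆ L' v) : col G L ⊆ col G L' := by
  intro f hf
  rw [mem_col] at hf ⊢
  exact ⟨fun v => h v (hf.1 v), hf.2⟩

/-- The number of colourings of a join with a complete graph. -/
theorem Pj_join_le (G : SimpleGraph V) (j p : ℕ) :
    (Pj (join G (⊤ : SimpleGraph (Fin p))) (p + j) : ℚ) ≤
      ((p + j).descFactorial p : ℚ) * Pj G j := by
  classical
  have h1 := card_col_join G p (fun _ => (univ : Finset (Fin (p + j)))) ∅
  simp only [sdiff_empty] at h1
  have hrep : (List.ofFn fun _ : Fin p => (univ : Finset (Fin (p + j))))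
      = List.replicate p univ := List.ofFn_const p univ
  have h3 : T (List.replicate p (univ : Finset (Fin (p + j))))
      (fun W => ((col G (fun _ => univ \ W)).card : ℚ)) ∅ ≤
      T (List.replicate p (univ : Finset (Fin (p + j)))) (fun _ => (Pj G j : ℚ) * 1) ∅ := by
    refine T_mono _ _ _ univ ∅ (fun A _ => subset_univ A) (empty_subset _) ?_
    intro W _ _ hW
    rw [card_empty, zero_add, List.length_replicate] at hW
    rw [card_col_const, card_sdiff_of_subset (subset_univ W), hW, card_univ, Fintype.card_fin,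
      Nat.add_sub_cancel_left, mul_one]
  rw [T_mul, T_replicate, sdiff_empty, card_univ, Fintype.card_fin] at h3
  have h4 : (Pj (join G (⊤ : SimpleGraph (Fin p))) (p + j) : ℚ)
      = ((col (join G (⊤ : SimpleGraph (Fin p))) fun _ => (univ : Finset (Fin (p + j)))).card : ℚ) :=
    rfl
  rw [h4, h1, hrep]
  linarith

theorem main_all [Nonempty V] (G : SimpleGraph V) : ∃ p : ℕ, 1 ≤ p ∧
    ∀ (j : ℕ) (L : V ⊕ Fin p → Finset ℕ), (∀ a, (L a).card = p + j) →
      ((p + j).descFactorial p : ℚ) * Pj G j ≤
        ((col (join G (⊤ : SimpleGraph (Fin p))) L).card : ℚ) := by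
  classical
  choose p0 hp0 using fun j => main_j (C := ℕ) G j
  set J := 2 * Fintype.card V * 2 ^ G.edgeFinset.card with hJ
  obtain ⟨p, hp⟩ : ∃ p, p = 1 + ∑ j ∈ range J, p0 j := ⟨_, rfl⟩
  refine ⟨p, by omega, fun j L hL => ?_⟩
  rcases Nat.lt_or_ge j J with hj | hj
  · refine hp0 j p ?_ L hL
    have := single_le_sum (f := p0) (fun _ _ => Nat.zero_le _) (mem_range.mpr hj)
    omega
  · have h1 := card_col_join G p L ∅
    simp only [sdiff_empty] at h1
    rw [h1]
    have h2 := T_greedy (List.ofFn fun i => L (Sum.inr i))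
      (fun W => ((col G (fun v => L (Sum.inl v) \ W)).card : ℚ)) ∅ (p + j) (Pj G j)
      (Nat.cast_nonneg _) (by
        intro A hA
        rw [List.mem_ofFn] at hA
        obtain ⟨i, rfl⟩ := hA
        rw [sdiff_empty, hL]) ?_
    · rwa [List.length_ofFn] at h2
    · intro W _ hW
      rw [card_empty, zero_add, List.length_ofFn] at hW
      have h3 : ∀ v, ∃ s ⊆ L (Sum.inl v) \ W, s.card = j := by
        intro v
        apply exists_subset_card_eq
        have := le_card_sdiff W (L (Sum.inl v))
        rw [hL, hW] at this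
        omega
      choose L' hL' hL'c using h3
      have h4 := donner G j hj L' hL'c
      have h5 := card_le_card (col_subset G hL')
      exact_mod_cast h4.trans h5

theorem enumChromChoosable_join [Nonempty V] (G : SimpleGraph V) :
    ∃ p : ℕ, 1 ≤ p ∧ EnumChromChoosable (join G (⊤ : SimpleGraph (Fin p))) := by
  classical
  obtain ⟨p, hp, hmain⟩ := main_all G
  refine ⟨p, hp, fun m _ hm => ?_⟩
  -- `p ≤ m`
  have hpm : p ≤ m := by
    have h1 : (join G (⊤ : SimpleGraph (Fin p))).Colorable m :=
      SimpleGraph.chromaticNumber_le_iff_colorable.mp hm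
    obtain ⟨c⟩ := h1
    have hinj : Function.Injective (fun i : Fin p => c (Sum.inr i)) := by
      intro i i' h
      by_contra hne
      exact c.valid (v := Sum.inr i) (w := Sum.inr i') (by simpa using hne) h
    simpa using Fintype.card_le_of_injective _ hinj
  obtain ⟨j, rfl⟩ : ∃ j, m = p + j := ⟨m - p, by omega⟩
  set H := join G (⊤ : SimpleGraph (Fin p)) with hH
  set S : Set ℕ := {k | ∃ L : V ⊕ Fin p → Finset ℕ, (∀ v, (L v).card = p + j) ∧
    numListCol H L = k} with hS
  have hmem : numCol H (p + j) ∈ S := by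
    refine ⟨fun _ => range (p + j), fun _ => card_range _, ?_⟩
    rw [numListCol_eq, card_col_const, card_range, numCol_eq]
  refine le_antisymm (Nat.sInf_le hmem) ?_
  have h2 : sInf S ∈ S := Nat.sInf_mem ⟨_, hmem⟩
  obtain ⟨L, hL, hk⟩ := h2
  change numCol H (p + j) ≤ sInf S
  rw [← hk, numListCol_eq, numCol_eq]
  have h3 := (Pj_join_le G j p).trans (hmain j L hL)
  exact_mod_cast h3

end

end Q127.ECC
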