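import Pool.Agent.Q127.ECC.T

/-!
# Greedy averages and the gain for cliques whose lists are not almost constant
-/

set_option autoImplicit false

namespace Q127.ECC

open Finset

variable {C : Type*} [DecidableEq C]

/-- The average over the greedy random colouring. -/
def Eg : List (Finset C) → (Finset C → ℚ) → Finset C → ℚ
  | [], Psi, U => Psi U
  | A :: ws, Psi, U => (∑ c ∈ A \ U, Eg ws Psi (insert c U)) / ((A \ U).card : ℚ)

@[simp] theorem Eg_nil (Psi : Finset C → ℚ) (U : Finset C) : Eg [] Psi U = Psi U := rfl

theorem Eg_cons (A : Finset C) (ws : List (Finset C)) (Psi : Finset C → ℚ) (U : Finset C) :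
    Eg (A :: ws) Psi U = (∑ c ∈ A \ U, Eg ws Psi (insert c U)) / ((A \ U).card : ℚ) := rfl

theorem card_sdiff_insert {B U : Finset C} {c : C} {M : ℕ} (h : M ≤ (B \ U).card) :
    M - 1 ≤ (B \ insert c U).card := by
  have h3 : (B \ U) \ {c} ⊆ B \ insert c U := by
    intro x hx
    simp only [mem_sdiff, mem_singleton, mem_insert, not_or] at hx ⊢
    exact ⟨hx.1.1, hx.2, hx.1.2⟩
  have h4 := card_le_card h3
  have h5 := le_card_sdiff {c} (B \ U)
  rw [card_singleton] at h5
  omega

theorem Eg_nonneg (ws : List (Finset C)) (Psi : Finset C → ℚ) (U : Finset C)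
    (h : ∀ W, 0 ≤ Psi W) : 0 ≤ Eg ws Psi U := by
  induction ws generalizing U with
  | nil => exact h U
  | cons A ws ih =>
    rw [Eg_cons]
    exact div_nonneg (sum_nonneg fun c _ => ih _) (Nat.cast_nonneg _)

theorem Eg_le_T (ws : List (Finset C)) (Psi : Finset C → ℚ) (U : Finset C) (M : ℕ)
    (h : ∀ W, 0 ≤ Psi W) (hws : ∀ A ∈ ws, M ≤ (A \ U).card) :
    (M.descFactorial ws.length : ℚ) * Eg ws Psi U ≤ T ws Psi U := by
  induction ws generalizing U M with
  | nil => simp
  | cons A ws ih =>
    rw [List.length_cons]
    rcases Nat.eq_zero_or_pos M with h0 | h0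
    · subst h0
      rw [Nat.zero_descFactorial_succ, Nat.cast_zero, zero_mul]
      exact T_nonneg _ _ _ h
    · obtain ⟨M', rfl⟩ : ∃ M', M = M' + 1 := ⟨M - 1, by omega⟩
      have h1 : ∀ c ∈ A \ U, (M'.descFactorial ws.length : ℚ) * Eg ws Psi (insert c U) ≤
          T ws Psi (insert c U) := by
        intro c _
        refine ih (insert c U) M' ?_
        intro B hB
        exact card_sdiff_insert (M := M' + 1) (hws B (List.mem_cons_of_mem _ hB))
      have h2 := sum_le_sum h1
      rw [← mul_sum] at h2
      rw [T_cons]
      refine le_trans ?_ h2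
      rw [Nat.succ_descFactorial_succ, Nat.cast_mul, Eg_cons]
      have h3 : M' + 1 ≤ (A \ U).card := hws A List.mem_cons_self
      have h4 : (0 : ℚ) < ((A \ U).card : ℚ) := by
        have : 0 < (A \ U).card := by omega
        exact_mod_cast this
      have h5 : ((M' + 1 : ℕ) : ℚ) / ((A \ U).card : ℚ) ≤ 1 := by
        rw [div_le_one h4]
        exact_mod_cast h3
      have h6 : 0 ≤ (M'.descFactorial ws.length : ℚ) * ∑ c ∈ A \ U, Eg ws Psi (insert c U) :=
        mul_nonneg (Nat.cast_nonneg _) (sum_nonneg fun c _ => Eg_nonneg _ _ _ h)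
      calc ((M' + 1 : ℕ) : ℚ) * (M'.descFactorial ws.length : ℚ) *
            ((∑ c ∈ A \ U, Eg ws Psi (insert c U)) / ((A \ U).card : ℚ))
          = (((M' + 1 : ℕ) : ℚ) / ((A \ U).card : ℚ)) *
            ((M'.descFactorial ws.length : ℚ) * ∑ c ∈ A \ U, Eg ws Psi (insert c U)) := by
            ring
        _ ≤ 1 * ((M'.descFactorial ws.length : ℚ) * ∑ c ∈ A \ U, Eg ws Psi (insert c U)) :=
            mul_le_mul_of_nonneg_right h5 h6
        _ = _ := one_mul _

theorem Eg_mono (ws : List (Finset C)) (Psi Psi' : Finset C → ℚ) (U : Finset C)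
    (h : ∀ W, W.card = U.card + ws.length → Psi W ≤ Psi' W) :
    Eg ws Psi U ≤ Eg ws Psi' U := by
  induction ws generalizing U with
  | nil => exact h U rfl
  | cons A ws ih =>
    rw [Eg_cons, Eg_cons]
    refine div_le_div_of_nonneg_right (sum_le_sum fun c hc => ?_) (Nat.cast_nonneg _)
    rw [mem_sdiff] at hc
    refine ih (insert c U) ?_
    intro W h3
    refine h W ?_
    rw [h3, card_insert_of_notMem hc.2, List.length_cons]
    omega

theorem Eg_const (ws : List (Finset C)) (a : ℚ) (U : Finset C)
    (hws : ∀ A ∈ ws, ws.length ≤ (A \ U).card) : Eg ws (fun _ => a) U = a := by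
  induction ws generalizing U with
  | nil => rfl
  | cons A ws ih =>
    rw [Eg_cons]
    have h1 : ∀ c ∈ A \ U, Eg ws (fun _ => a) (insert c U) = a := by
      intro c _
      refine ih (insert c U) ?_
      intro B hB
      have := hws B (List.mem_cons_of_mem _ hB)
      rw [List.length_cons] at this
      exact card_sdiff_insert (M := ws.length + 1) this
    rw [sum_congr rfl h1, sum_const, nsmul_eq_mul]
    have h2 := hws A List.mem_cons_self
    rw [List.length_cons] at h2
    have h4 : ((A \ U).card : ℚ) ≠ 0 := by
      have : 0 < (A \ U).card := by omega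
      exact_mod_cast this.ne'
    field_simp

theorem Eg_add (ws : List (Finset C)) (Psi Psi' : Finset C → ℚ) (U : Finset C) :
    Eg ws (fun W => Psi W + Psi' W) U = Eg ws Psi U + Eg ws Psi' U := by
  induction ws generalizing U with
  | nil => rfl
  | cons A ws ih =>
    rw [Eg_cons, Eg_cons, Eg_cons, ← add_div, ← sum_add_distrib]
    congr 1
    exact sum_congr rfl fun c _ => ih _

theorem Eg_mul (ws : List (Finset C)) (a : ℚ) (Psi : Finset C → ℚ) (U : Finset C) :
    Eg ws (fun W => a * Psi W) U = a * Eg ws Psi U := by
  induction ws generalizing U with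
  | nil => rfl
  | cons A ws ih =>
    rw [Eg_cons, Eg_cons, mul_div_assoc', mul_sum]
    congr 1
    exact sum_congr rfl fun c _ => ih _

/-- The greedy probability that all colours used lie in `La`. -/
theorem Eg_bad (ws : List (Finset C)) (La U : Finset C) (N : ℕ) (hN : 0 < N)
    (hws : ∀ A ∈ ws, A.card = N) (hLa : La.card = N) (hlen : U.card + ws.length ≤ N) :
    Eg ws (fun W => if W ⊆ La then 1 else 0) U ≤
      (1 - 1 / (N : ℚ)) ^ (ws.countP (fun A => A ≠ La)) := by
  have hNq : (0 : ℚ) < N := by exact_mod_cast hN
  have hN1 : (1 : ℚ) / N ≤ 1 := by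
    rw [div_le_one hNq]
    exact_mod_cast hN
  have hbase : (0 : ℚ) ≤ 1 - 1 / (N : ℚ) := by linarith
  induction ws generalizing U with
  | nil =>
    simp only [Eg_nil, List.countP_nil, pow_zero]
    split_ifs <;> norm_num
  | cons A ws ih =>
    by_cases hU : U ⊆ La
    · rw [Eg_cons]
      rw [List.length_cons] at hlen
      have hAc := hws A List.mem_cons_self
      have hpos : 0 < (A \ U).card := by
        have := le_card_sdiff U A
        omega
      have hposq : (0 : ℚ) < ((A \ U).card : ℚ) := by exact_mod_cast hpos
      rw [div_le_iff₀ hposq]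
      -- split the sum
      have h1 : ∀ c ∈ A \ U, Eg ws (fun W => if W ⊆ La then (1 : ℚ) else 0) (insert c U) ≤
          if c ∈ La then (1 - 1 / (N : ℚ)) ^ (ws.countP (fun A => A ≠ La)) else 0 := by
        intro c hc
        rw [mem_sdiff] at hc
        split_ifs with hcL
        · refine ih (insert c U) (fun B hB => hws B (List.mem_cons_of_mem _ hB)) ?_
          rw [card_insert_of_notMem hc.2]
          omega
        · have h2 : Eg ws (fun W => if W ⊆ La then (1 : ℚ) else 0) (insert c U) ≤
              Eg ws (fun _ => 0) (insert c U) := by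
            clear ih
            -- all reachable sets contain `c`
            have h3 : ∀ (vs : List (Finset C)) (V : Finset C), c ∈ V →
                Eg vs (fun W => if W ⊆ La then (1 : ℚ) else 0) V ≤ Eg vs (fun _ => 0) V := by
              intro vs
              induction vs with
              | nil =>
                intro V hV
                simp only [Eg_nil]
                rw [if_neg (fun h => hcL (h hV))]
              | cons B vs ih' =>
                intro V hV
                rw [Eg_cons, Eg_cons]
                exact div_le_div_of_nonneg_right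
                  (sum_le_sum fun x _ => ih' _ (mem_insert_of_mem hV)) (Nat.cast_nonneg _)
            exact h3 ws _ (mem_insert_self _ _)
          refine h2.trans (le_of_eq ?_)
          have h4 := Eg_mul ws 0 (fun _ => 0) (insert c U)
          simpa using h4
      refine (sum_le_sum h1).trans ?_
      rw [← sum_filter, sum_const, nsmul_eq_mul]
      by_cases hA : A = La
      · rw [List.countP_cons_of_neg (by simpa using hA)]
        rw [mul_comm]
        refine mul_le_mul_of_nonneg_left ?_ (pow_nonneg hbase _)
        exact_mod_cast card_filter_le _ _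
      · rw [List.countP_cons_of_pos (by simpa using hA), pow_succ]
        have hx : ∃ x ∈ A \ U, x ∉ La := by
          by_contra hcon
          push Not at hcon
          have hsub : A ⊆ La := by
            intro y hy
            by_cases hyU : y ∈ U
            · exact hU hyU
            · exact hcon y (mem_sdiff.mpr ⟨hy, hyU⟩)
          exact hA (eq_of_subset_of_card_le hsub (by omega))
        obtain ⟨x, hx1, hx2⟩ := hx
        have h5 : ((A \ U).filter (fun c => c ∈ La)).card + 1 ≤ (A \ U).card := by
          have h6 : (A \ U).filter (fun c => c ∈ La) ⊆ (A \ U).erase x := by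
            intro y hy
            rw [mem_filter] at hy
            rw [mem_erase]
            exact ⟨fun h => hx2 (h ▸ hy.2), hy.1⟩
          have h7 := card_le_card h6
          rw [card_erase_of_mem hx1] at h7
          omega
        have h8 : ((A \ U).card : ℚ) ≤ N := by
          have : (A \ U).card ≤ N := hAc ▸ card_le_card sdiff_subset
          exact_mod_cast this
        have h9 : (((A \ U).filter (fun c => c ∈ La)).card : ℚ) ≤
            (1 - 1 / (N : ℚ)) * ((A \ U).card : ℚ) := by
          have h10 : (((A \ U).filter (fun c => c ∈ La)).card : ℚ) + 1 ≤ (A \ U).card := by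
            exact_mod_cast h5
          have h11 : 1 / (N : ℚ) * ((A \ U).card : ℚ) ≤ 1 := by
            rw [div_mul_eq_mul_div, one_mul, div_le_one hNq]
            exact h8
          linarith
        calc (((A \ U).filter (fun c => c ∈ La)).card : ℚ) *
              (1 - 1 / (N : ℚ)) ^ (ws.countP (fun A => A ≠ La))
            ≤ ((1 - 1 / (N : ℚ)) * ((A \ U).card : ℚ)) *
              (1 - 1 / (N : ℚ)) ^ (ws.countP (fun A => A ≠ La)) :=
              mul_le_mul_of_nonneg_right h9 (pow_nonneg hbase _)
          _ = _ := by ring
    · -- some colour of `U` is outside `La`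
      obtain ⟨c, hcU, hcL⟩ := not_subset.mp hU
      have h3 : ∀ (vs : List (Finset C)) (V : Finset C), c ∈ V →
          Eg vs (fun W => if W ⊆ La then (1 : ℚ) else 0) V ≤ 0 := by
        intro vs
        induction vs with
        | nil =>
          intro V hV
          simp only [Eg_nil]
          rw [if_neg (fun h => hcL (h hV))]
        | cons B vs ih' =>
          intro V hV
          rw [Eg_cons]
          refine div_nonpos_of_nonpos_of_nonneg ?_ (Nat.cast_nonneg _)
          exact sum_nonpos fun x _ => ih' _ (mem_insert_of_mem hV)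
      exact (h3 _ U hcU).trans (pow_nonneg hbase _)

/-- Number of members of `E` that do not contain `W`. -/
def Zc (E : List (Finset C)) (W : Finset C) : ℚ :=
  (E.map fun A => if W ⊆ A then (0 : ℚ) else 1).sum

theorem Zc_eq (E : List (Finset C)) (W : Finset C) :
    Zc E W = ((E.filter fun A => ¬ W ⊆ A).length : ℚ) := by
  induction E with
  | nil => simp [Zc]
  | cons A E ih =>
    unfold Zc at ih ⊢
    rw [List.map_cons, List.sum_cons, ih]
    by_cases h : W ⊆ A
    · simp [h]
    · simp [h, add_comm]

theorem fact_identity (t b z : ℕ) :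
    ((t + (b + z)).descFactorial b : ℚ) * (t + z + 1).descFactorial z =
      ((t + (b + z)).descFactorial (b + z) : ℚ) * (1 + (z : ℚ) / (t + 1)) := by
  have h1 : ((t + z).factorial : ℚ) * ((t + (b + z)).descFactorial b : ℚ)
      = ((t + (b + z)).factorial : ℚ) := by
    have := Nat.factorial_mul_descFactorial (n := t + (b + z)) (k := b) (by omega)
    rw [show t + (b + z) - b = t + z by omega] at this
    exact_mod_cast this
  have h2 : ((t + 1).factorial : ℚ) * ((t + z + 1).descFactorial z : ℚ)
      = ((t + z + 1).factorial : ℚ) := by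
    have := Nat.factorial_mul_descFactorial (n := t + z + 1) (k := z) (by omega)
    rw [show t + z + 1 - z = t + 1 by omega] at this
    exact_mod_cast this
  have h3 : ((t).factorial : ℚ) * ((t + (b + z)).descFactorial (b + z) : ℚ)
      = ((t + (b + z)).factorial : ℚ) := by
    have := Nat.factorial_mul_descFactorial (n := t + (b + z)) (k := b + z) (by omega)
    rw [show t + (b + z) - (b + z) = t by omega] at this
    exact_mod_cast this
  have f0 : ((t).factorial : ℚ) ≠ 0 := by exact_mod_cast Nat.factorial_ne_zero t
  have f1 : ((t + z).factorial : ℚ) ≠ 0 := by exact_mod_cast Nat.factorial_ne_zero _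
  have f2 : ((t + 1).factorial : ℚ) = (t + 1) * (t).factorial := by
    rw [Nat.factorial_succ]; push_cast; ring
  have f3 : ((t + z + 1).factorial : ℚ) = (t + z + 1) * (t + z).factorial := by
    rw [Nat.factorial_succ]; push_cast; ring
  have f4 : ((t : ℚ) + 1) ≠ 0 := by positivity
  rw [f2] at h2
  rw [f3] at h2
  have e1 : ((t + (b + z)).descFactorial b : ℚ)
      = ((t + (b + z)).factorial : ℚ) / ((t + z).factorial : ℚ) := by
    field_simp
    linarith
  have e2 : ((t + z + 1).descFactorial z : ℚ)
      = ((t + z + 1) * (t + z).factorial) / ((t + 1) * (t).factorial) := by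
    field_simp
    linarith
  have e3 : ((t + (b + z)).descFactorial (b + z) : ℚ)
      = ((t + (b + z)).factorial : ℚ) / ((t).factorial : ℚ) := by
    field_simp
    linarith
  rw [e1, e2, e3]
  field_simp
  ring

theorem ext_bound (E : List (Finset C)) (t N : ℕ) (W : Finset C) (hE : ∀ A ∈ E, A.card = N)
    (hN : W.card + E.length + t = N) :
    ((t + E.length).descFactorial E.length : ℚ) * (1 + Zc E W / (t + 1)) ≤
      T E (fun _ => 1) W := by
  classical
  set bads := E.filter (fun A => W ⊆ A) with hbads
  set goods := E.filter (fun A => ¬ W ⊆ A) with hgoods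
  have hperm : (bads ++ goods).Perm E := by
    have := List.filter_append_perm (fun A : Finset C => decide (W ⊆ A)) E
    convert this using 3
    simp
  rw [← T_perm hperm, T_append]
  have hlen : bads.length + goods.length = E.length := by
    rw [← List.length_append]
    exact hperm.length_eq
  rw [Zc_eq]
  change _ * (1 + (goods.length : ℚ) / (t + 1)) ≤ _
  have hg : ∀ A ∈ goods, t + E.length + 1 ≤ (A \ W).card := by
    intro A hA
    rw [hgoods, List.mem_filter] at hA
    have h1 : ¬ W ⊆ A := by simpa using hA.2
    obtain ⟨x, hx1, hx2⟩ := not_subset.mp h1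
    have h2 : (A ∩ W).card + 1 ≤ W.card := by
      have h3 : A ∩ W ⊆ W.erase x := by
        intro y hy
        rw [mem_inter] at hy
        rw [mem_erase]
        exact ⟨fun h => hx2 (h ▸ hy.1), hy.2⟩
      have h4 := card_le_card h3
      rw [card_erase_of_mem hx1] at h4
      have : 0 < W.card := card_pos.mpr ⟨x, hx1⟩
      omega
    have h5 := hE A hA.1
    have h6 := card_sdiff_add_card_inter A W
    omega
  have hb : ∀ A ∈ bads, t + E.length ≤ (A \ W).card := by
    intro A hA
    rw [hbads, List.mem_filter] at hA
    have h5 := hE A hA.1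
    have h6 := le_card_sdiff W A
    omega
  have h1 := T_greedy bads (T goods (fun _ => 1)) W (t + E.length)
    (((t + goods.length + 1).descFactorial goods.length : ℕ) : ℚ) (Nat.cast_nonneg _) hb ?_
  · refine le_trans (le_of_eq ?_) h1
    rw [← hlen]
    exact (fact_identity t bads.length goods.length).symm
  · intro W' hW' hW'c
    have h2 := T_greedy goods (fun _ => (1 : ℚ)) W' (t + goods.length + 1) 1 zero_le_one ?_
      (fun _ _ _ => le_rfl)
    · simpa using h2
    · intro A hA
      have h3 := hg A hA
      have h4 : (A \ W).card ≤ (A \ W').card + (W' \ W).card := by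
        have h5 : A \ W ⊆ (A \ W') ∪ (W' \ W) := by
          intro x hx
          rw [mem_sdiff] at hx
          rw [mem_union, mem_sdiff, mem_sdiff]
          by_cases hxW : x ∈ W'
          · exact Or.inr ⟨hxW, hx.2⟩
          · exact Or.inl ⟨hx.1, hxW⟩
        exact (card_le_card h5).trans (card_union_le _ _)
      have h6 : (W' \ W).card = bads.length := by
        rw [card_sdiff_of_subset hW']
        omega
      omega

theorem Eg_Zc (E R : List (Finset C)) (U : Finset C) (hR : ∀ A ∈ R, R.length ≤ (A \ U).card)
    (q : ℚ) (hq : ∀ La ∈ E, Eg R (fun W => if W ⊆ La then (1 : ℚ) else 0) U ≤ q) :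
    (E.length : ℚ) * (1 - q) ≤ Eg R (Zc E) U := by
  induction E with
  | nil =>
    have : Eg R (Zc ([] : List (Finset C))) U = Eg R (fun _ => 0) U := rfl
    rw [this, Eg_const R 0 U hR]
    simp
  | cons La E ih =>
    have h1 : Zc (La :: E) = fun W => (1 + (-1) * (if W ⊆ La then (1 : ℚ) else 0)) + Zc E W := by
      funext W
      unfold Zc
      rw [List.map_cons, List.sum_cons]
      split_ifs <;> norm_num
    rw [h1, Eg_add, Eg_add, Eg_mul, Eg_const R 1 U hR]
    have h2 := hq La List.mem_cons_self
    have h3 := ih (fun L hL => hq L (List.mem_cons_of_mem _ hL))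
    rw [List.length_cons]
    push_cast
    linarith

/-- The gain theorem for a clique whose last lists differ from many others. -/
theorem gain_core (R E : List (Finset C)) (t N d : ℕ) (hR : ∀ A ∈ R, A.card = N)
    (hE : ∀ A ∈ E, A.card = N) (hN : R.length + E.length + t = N) (hN0 : 0 < N)
    (hd : ∀ La ∈ E, d ≤ R.countP (fun A => A ≠ La)) (hdN : N ≤ 8 * d) :
    (N.descFactorial (R.length + E.length) : ℚ) * (1 + (E.length : ℚ) / (9 * (t + 1))) ≤
      T (R ++ E) (fun _ => 1) ∅ := by
  have hNq : (0 : ℚ) < N := by exact_mod_cast hN0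
  rw [T_append]
  -- lower bound by the greedy average
  have h1 := Eg_le_T R (T E (fun _ => 1)) ∅ N (fun W => T_nonneg _ _ _ fun _ => zero_le_one)
    (fun A hA => by rw [sdiff_empty, hR A hA])
  refine le_trans ?_ h1
  have h2 : Eg R (fun W => ((t + E.length).descFactorial E.length : ℚ) *
      (1 + (1 / ((t : ℚ) + 1)) * Zc E W)) ∅ ≤ Eg R (T E (fun _ => 1)) ∅ := by
    refine Eg_mono R _ _ ∅ ?_
    intro W hW
    rw [card_empty, zero_add] at hW
    refine le_trans (le_of_eq ?_) (ext_bound E t N W hE (by omega))
    ring
  have hRlen : ∀ A ∈ R, R.length ≤ (A \ ∅).card := by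
    intro A hA
    rw [sdiff_empty, hR A hA]
    omega
  rw [Eg_mul, Eg_add, Eg_const R 1 ∅ hRlen, Eg_mul] at h2
  -- the probability bound
  have hq : ∀ La ∈ E, Eg R (fun W => if W ⊆ La then (1 : ℚ) else 0) ∅ ≤ 8 / 9 := by
    intro La hLa
    have h3 := Eg_bad R La ∅ N hN0 hR (hE La hLa) (by rw [card_empty]; omega)
    refine h3.trans ?_
    have hN1 : (1 : ℚ) / N ≤ 1 := by
      rw [div_le_one hNq]
      exact_mod_cast hN0
    have hbase : (0 : ℚ) ≤ 1 - 1 / (N : ℚ) := by linarith
    have h4 : (1 - 1 / (N : ℚ)) ^ (R.countP (fun A => A ≠ La)) ≤ (1 - 1 / (N : ℚ)) ^ d :=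
      pow_le_pow_of_le_one hbase (by linarith [div_pos one_pos hNq]) (hd La hLa)
    refine h4.trans ?_
    have h5 : 1 + (d : ℚ) * (1 / (N : ℚ)) ≤ (1 + 1 / (N : ℚ)) ^ d :=
      one_add_mul_le_pow (by have := div_pos one_pos hNq; linarith) d
    have h6 : (1 - 1 / (N : ℚ)) ^ d * (1 + 1 / (N : ℚ)) ^ d ≤ 1 := by
      rw [← mul_pow]
      refine pow_le_one₀ ?_ ?_
      · exact mul_nonneg hbase (by have := div_pos one_pos hNq; linarith)
      · have : (1 - 1 / (N : ℚ)) * (1 + 1 / (N : ℚ)) = 1 - (1 / (N : ℚ)) ^ 2 := by ring
        rw [this]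
        have := sq_nonneg (1 / (N : ℚ))
        linarith
    have h7 : (9 : ℚ) / 8 ≤ 1 + (d : ℚ) * (1 / (N : ℚ)) := by
      have : (1 : ℚ) / 8 ≤ d * (1 / N) := by
        rw [mul_one_div, div_le_div_iff₀ (by norm_num) hNq]
        have : (N : ℚ) ≤ 8 * d := by exact_mod_cast hdN
        linarith
      linarith
    have h8 : 0 ≤ (1 - 1 / (N : ℚ)) ^ d := pow_nonneg hbase d
    have h9 : (1 - 1 / (N : ℚ)) ^ d * (9 / 8) ≤ 1 :=
      le_trans (mul_le_mul_of_nonneg_left (h7.trans h5) h8) h6
    linarith
  have h3 := Eg_Zc E R ∅ hRlen (8 / 9) hq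
  have h4 : (N.descFactorial (R.length + E.length) : ℚ)
      = (N.descFactorial R.length : ℚ) * ((t + E.length).descFactorial E.length : ℚ) := by
    have := Nat.descFactorial_mul_descFactorial (n := N) (k := R.length)
      (m := R.length + E.length) (by omega)
    rw [show N - R.length = t + E.length by omega, Nat.add_sub_cancel_left] at this
    rw [← this]
    push_cast
    ring
  rw [h4, mul_assoc]
  refine mul_le_mul_of_nonneg_left ?_ (Nat.cast_nonneg _)
  refine le_trans ?_ h2
  refine mul_le_mul_of_nonneg_left ?_ (Nat.cast_nonneg _)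
  have ht : (0 : ℚ) < (t : ℚ) + 1 := by positivity
  have h5 : (1 / ((t : ℚ) + 1)) * ((E.length : ℚ) * (1 - 8 / 9)) ≤
      (1 / ((t : ℚ) + 1)) * Eg R (Zc E) ∅ :=
    mul_le_mul_of_nonneg_left h3 (by positivity)
  have h6 : (E.length : ℚ) / (9 * (t + 1))
      = (1 / ((t : ℚ) + 1)) * ((E.length : ℚ) * (1 - 8 / 9)) := by
    field_simp
    norm_num
  rw [h6]
  linarith

theorem gain (ws : List (Finset C)) (t s N : ℕ) (hws : ∀ A ∈ ws, A.card = N)
    (hN : ws.length + t = N) (hN0 : 0 < N) (hs : 4 * s ≤ ws.length) (ht : t ≤ ws.length)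
    (hex : ∀ S : Finset C, s ≤ ws.countP (fun A => A ≠ S)) :
    (N.descFactorial ws.length : ℚ) * (1 + (s : ℚ) / (9 * (t + 1))) ≤ T ws (fun _ => 1) ∅ := by
  classical
  by_cases hmaj : ∃ S : Finset C, ws.length ≤ 2 * (ws.filter (fun A => A = S)).length
  · obtain ⟨S, hS⟩ := hmaj
    set exc := ws.filter (fun A => A ≠ S) with hexc
    set maj := ws.filter (fun A => A = S) with hmajdef
    have hexclen : s ≤ exc.length := by
      have := hex S
      rwa [List.countP_eq_length_filter] at this
    have hperm : (maj ++ exc).Perm ws := by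
      have := List.filter_append_perm (fun A : Finset C => decide (A = S)) ws
      convert this using 3
      simp
    have hperm2 : ((exc.drop s ++ maj) ++ exc.take s).Perm ws := by
      refine List.Perm.trans ?_ hperm
      have h1 : (exc.take s ++ exc.drop s).Perm exc := by rw [List.take_append_drop]
      have h2 : ((exc.drop s ++ maj) ++ exc.take s).Perm ((exc.take s ++ exc.drop s) ++ maj) := by
        refine List.perm_append_comm.trans ?_
        rw [List.append_assoc]
      refine h2.trans ?_
      exact (List.Perm.append_right maj h1).trans List.perm_append_comm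
    have hlenE : (exc.take s).length = s := by
      rw [List.length_take]
      omega
    have hlen := hperm2.length_eq
    rw [List.length_append] at hlen
    have hg := gain_core (exc.drop s ++ maj) (exc.take s) t N maj.length
      (fun A hA => hws A (hperm2.subset (List.mem_append_left _ hA)))
      (fun A hA => hws A (hperm2.subset (List.mem_append_right _ hA)))
      (by omega) hN0 ?_ ?_
    · rw [T_perm hperm2, hlenE] at hg
      rw [← hlen, hlenE]
      exact hg
    · intro La hLa
      have h1 : La ∈ exc := List.mem_of_mem_take hLa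
      rw [hexc, List.mem_filter] at h1
      have h2 : La ≠ S := by simpa using h1.2
      rw [List.countP_append]
      have h3 : maj.countP (fun A => A ≠ La) = maj.length := by
        rw [List.countP_eq_length]
        intro A hA
        rw [hmajdef, List.mem_filter] at hA
        have h4 : A = S := by simpa using hA.2
        simpa [h4] using h2.symm
      omega
    · omega
  · push Not at hmaj
    have hperm2 : (ws.drop s ++ ws.take s).Perm ws := by
      refine List.perm_append_comm.trans ?_
      rw [List.take_append_drop]
    have hlenE : (ws.take s).length = s := by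
      rw [List.length_take]
      omega
    have hlenR : (ws.drop s).length = ws.length - s := List.length_drop ..
    have hg := gain_core (ws.drop s) (ws.take s) t N ((ws.length + 3) / 4)
      (fun A hA => hws A (hperm2.subset (List.mem_append_left _ hA)))
      (fun A hA => hws A (hperm2.subset (List.mem_append_right _ hA)))
      (by omega) hN0 ?_ (by omega)
    · rw [T_perm hperm2, hlenE] at hg
      rw [hlenR, show ws.length - s + s = ws.length by omega] at hg
      exact hg
    · intro La _
      have h1 := hmaj La
      have h2 : (ws.drop s).countP (fun A => A = La) ≤ (ws.filter (fun A => A = La)).length := by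
        rw [← List.countP_eq_length_filter]
        exact (List.drop_sublist s ws).countP_le
      have h3 := List.length_eq_countP_add_countP (fun A : Finset C => decide (A = La))
        (l := ws.drop s)
      have h4 : (ws.drop s).countP (fun A => decide (A ≠ La))
          = (ws.drop s).countP (fun A => decide (¬ (decide (A = La)) = true)) := by
        congr 1
        funext A
        simp
      rw [← h4] at h3
      omega

end Q127.ECC
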