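import Pool.Agent.Q127.ECC.Defs
import Pool.Agent.Q127.ECC.Col

/-!
# Joins with complete graphs
-/

set_option autoImplicit false

namespace Q127.ECC

open Finset

section
variable {V W : Type*} {G : SimpleGraph V} {H : SimpleGraph W}

@[simp] theorem join_inl_inl (u v : V) :
    (join G H).Adj (Sum.inl u) (Sum.inl v) ↔ G.Adj u v := by
  simp [join]

@[simp] theorem join_inr_inr (u v : W) :
    (join G H).Adj (Sum.inr u) (Sum.inr v) ↔ H.Adj u v := by
  simp [join]

@[simp] theorem join_inl_inr (u : V) (v : W) : (join G H).Adj (Sum.inl u) (Sum.inr v) := by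
  simp [join]

@[simp] theorem join_inr_inl (u : W) (v : V) : (join G H).Adj (Sum.inr u) (Sum.inl v) := by
  simp [join]

end

section
variable {C : Type*} [DecidableEq C]

theorem T_ofFn (p : ℕ) (A : Fin p → Finset C) (Psi : Finset C → ℚ) (U : Finset C) :
    T (List.ofFn A) Psi U = ∑ g ∈ (Fintype.piFinset A).filter
      (fun g => Function.Injective g ∧ ∀ i, g i ∉ U), Psi (U ∪ univ.image g) := by
  classical
  induction p generalizing U with
  | zero =>
    rw [List.ofFn_zero, T_nil]
    have h1 : (Fintype.piFinset A).filter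
        (fun g => Function.Injective g ∧ ∀ i, g i ∉ U) = {Fin.elim0} := by
      ext g
      rw [mem_filter, Fintype.mem_piFinset, mem_singleton]
      constructor
      · intro _
        funext i
        exact i.elim0
      · rintro rfl
        exact ⟨fun i => i.elim0, fun i => i.elim0, fun i => i.elim0⟩
    rw [h1, sum_singleton]
    simp
  | succ p ih =>
    rw [List.ofFn_succ, T_cons]
    simp only [ih]
    rw [sum_sigma']
    refine sum_bij' (fun x _ => Fin.cons x.1 x.2) (fun g _ => ⟨g 0, fun i => g i.succ⟩) ?_ ?_ ?_ ?_ ?_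
    · rintro ⟨c, g⟩ h
      rw [mem_sigma, mem_sdiff, mem_filter, Fintype.mem_piFinset] at h
      obtain ⟨⟨h1, h2⟩, h3, h4, h5⟩ := h
      rw [mem_filter, Fintype.mem_piFinset]
      refine ⟨?_, ?_, ?_⟩
      · intro i
        refine Fin.cases ?_ (fun i => ?_) i
        · exact h1
        · exact h3 i
      · rw [Fin.cons_injective_iff]
        refine ⟨?_, h4⟩
        rintro ⟨i, hi⟩
        exact h5 i (hi ▸ mem_insert_self _ _)
      · intro i
        refine Fin.cases ?_ (fun i => ?_) i
        · exact h2
        · exact fun h => h5 i (mem_insert_of_mem h)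
    · intro g h
      rw [mem_filter, Fintype.mem_piFinset] at h
      obtain ⟨h1, h2, h3⟩ := h
      rw [mem_sigma, mem_sdiff, mem_filter, Fintype.mem_piFinset]
      refine ⟨⟨h1 0, h3 0⟩, fun i => h1 i.succ, ?_, ?_⟩
      · intro i j hij
        exact Fin.succ_injective _ (h2 hij)
      · intro i
        rw [mem_insert, not_or]
        exact ⟨fun h => absurd (h2 h) (Fin.succ_ne_zero i), h3 _⟩
    · rintro ⟨c, g⟩ _
      rfl
    · intro g _
      exact Fin.cons_self_tail g
    · rintro ⟨c, g⟩ _
      dsimp only
      congr 1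
      ext x
      simp only [mem_union, mem_insert, mem_image, mem_univ, true_and, Fin.exists_fin_succ,
        Fin.cons_zero, Fin.cons_succ]
      constructor
      · rintro ((h | h) | ⟨i, h⟩)
        · exact Or.inr (Or.inl h.symm)
        · exact Or.inl h
        · exact Or.inr (Or.inr ⟨i, h⟩)
      · rintro (h | h | ⟨i, h⟩)
        · exact Or.inl (Or.inr h)
        · exact Or.inl (Or.inl h.symm)
        · exact Or.inr ⟨i, h⟩

end

section
variable {V : Type*} [Fintype V] {C : Type*} [DecidableEq C]

/-- Counting the colourings of a join with a complete graph. -/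
theorem card_col_join (G : SimpleGraph V) (p : ℕ) (L : V ⊕ Fin p → Finset C) (U : Finset C) :
    ((col (join G (⊤ : SimpleGraph (Fin p))) (fun a => L a \ U)).card : ℚ)
      = T (List.ofFn fun i => L (Sum.inr i))
        (fun W => ((col G (fun v => L (Sum.inl v) \ W)).card : ℚ)) U := by
  classical
  rw [T_ofFn]
  have h1 : ∀ f ∈ col (join G (⊤ : SimpleGraph (Fin p))) (fun a => L a \ U),
      (fun i => f (Sum.inr i)) ∈ (Fintype.piFinset fun i => L (Sum.inr i)).filter
        (fun g => Function.Injective g ∧ ∀ i, g i ∉ U) := by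
    intro f hf
    rw [mem_col] at hf
    rw [mem_filter, Fintype.mem_piFinset]
    refine ⟨fun i => (mem_sdiff.mp (hf.1 _)).1, ?_, fun i => (mem_sdiff.mp (hf.1 _)).2⟩
    intro i j hij
    by_contra hne
    exact hf.2 (Sum.inr i) (Sum.inr j) (by simpa using hne) hij
  rw [Finset.card_eq_sum_card_fiberwise h1]
  push_cast
  refine sum_congr rfl fun g hg => ?_
  rw [mem_filter, Fintype.mem_piFinset] at hg
  obtain ⟨hg1, hg2, hg3⟩ := hg
  congr 1
  refine Finset.card_bij' (fun f _ => fun v => f (Sum.inl v)) (fun h _ => Sum.elim h g)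
    ?_ ?_ ?_ ?_
  · intro f hf
    rw [mem_filter, mem_col] at hf
    obtain ⟨⟨hf1, hf2⟩, hf3⟩ := hf
    rw [mem_col]
    refine ⟨fun v => ?_, fun u v huv => hf2 _ _ (by simpa using huv)⟩
    have h2 := hf1 (Sum.inl v)
    rw [mem_sdiff] at h2
    rw [mem_sdiff, mem_union, not_or]
    refine ⟨h2.1, h2.2, ?_⟩
    rw [mem_image]
    rintro ⟨i, _, hi⟩
    have h3 : f (Sum.inr i) = g i := congrFun hf3 i
    exact hf2 (Sum.inr i) (Sum.inl v) (by simp) (h3.trans hi)
  · intro h hh
    rw [mem_col] at hh
    rw [mem_filter, mem_col]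
    refine ⟨⟨?_, ?_⟩, rfl⟩
    · rintro (v | i)
      · have h2 := hh.1 v
        rw [mem_sdiff, mem_union, not_or] at h2
        exact mem_sdiff.mpr ⟨h2.1, h2.2.1⟩
      · exact mem_sdiff.mpr ⟨hg1 i, hg3 i⟩
    · have h3 : ∀ v i, h v ≠ g i := by
        intro v i heq
        have h2 := hh.1 v
        rw [mem_sdiff, mem_union, not_or] at h2
        exact h2.2.2 (mem_image.mpr ⟨i, mem_univ _, heq.symm⟩)
      rintro (u | i) (v | j) huv
      · exact hh.2 u v (by simpa using huv)
      · exact h3 u j
      · exact (h3 v i).symm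
      · intro heq
        have := hg2 heq
        subst this
        exact (join G (⊤ : SimpleGraph (Fin p))).irrefl huv
  · intro f hf
    rw [mem_filter] at hf
    funext a
    rcases a with v | i
    · rfl
    · exact (congrFun hf.2 i).symm
  · intro h _
    rfl

/-- A join with a large clique is chromatic-choosable. -/
theorem exists_col_join (G : SimpleGraph V) (j q : ℕ) (hG : 0 < Pj G j)
    (hq : Fintype.card V * Fintype.card V ≤ q) (L : V ⊕ Fin q → Finset C)
    (hL : ∀ a, q + j ≤ (L a).card) :
    (col (join G (⊤ : SimpleGraph (Fin q))) L).Nonempty := by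
  classical
  set n := Fintype.card V with hn
  by_cases hall : ∀ s : Finset (V ⊕ Fin q), s.card ≤ (s.biUnion L).card
  · obtain ⟨f, hf1, hf2⟩ :=
      (Finset.all_card_le_biUnion_card_iff_exists_injective L).mp hall
    exact ⟨f, mem_col.mpr ⟨hf2, fun u v huv h => huv.ne (hf1 h)⟩⟩
  push Not at hall
  -- a largest violating set
  have hne : ((univ : Finset (Finset (V ⊕ Fin q))).filter
      (fun s => (s.biUnion L).card < s.card)).Nonempty := by
    obtain ⟨s, hs⟩ := hall
    exact ⟨s, mem_filter.mpr ⟨mem_univ _, hs⟩⟩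
  obtain ⟨X, hX, hXmax⟩ := exists_max_image _ card hne
  rw [mem_filter] at hX
  have hXv := hX.2
  have hXmax' : ∀ s : Finset (V ⊕ Fin q), X.card < s.card → s.card ≤ (s.biUnion L).card := by
    intro s hs
    by_contra hcon
    push Not at hcon
    have := hXmax s (mem_filter.mpr ⟨mem_univ _, hcon⟩)
    omega
  set LX := X.biUnion L with hLX
  -- colouring of the complement of `X`
  obtain ⟨f2, hf2inj, hf2⟩ := (Finset.all_card_le_biUnion_card_iff_exists_injective
    (fun a : {a // a ∉ X} => L a.1 \ LX)).mp (by
      intro s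
      rcases s.eq_empty_or_nonempty with rfl | hs
      · simp
      let s' : Finset (V ⊕ Fin q) := s.image Subtype.val
      have hs'c : s'.card = s.card := card_image_of_injective _ Subtype.val_injective
      have hdisj : Disjoint X s' := by
        rw [disjoint_right]
        intro a ha
        rw [mem_image] at ha
        obtain ⟨b, _, rfl⟩ := ha
        exact b.2
      have h1 := hXmax' (X ∪ s') (by
        rw [card_union_of_disjoint hdisj, hs'c]
        have := hs.card_pos
        omega)
      rw [card_union_of_disjoint hdisj, hs'c] at h1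
      have h2 : (X ∪ s').biUnion L ⊆ LX ∪ s.biUnion (fun a => L a.1 \ LX) := by
        intro c hc
        rw [mem_biUnion] at hc
        obtain ⟨a, ha, hca⟩ := hc
        rw [mem_union]
        by_cases hcL : c ∈ LX
        · exact Or.inl hcL
        · right
          rw [mem_union] at ha
          rcases ha with ha | ha
          · exact absurd (mem_biUnion.mpr ⟨a, ha, hca⟩) hcL
          · rw [mem_image] at ha
            obtain ⟨b, hb, rfl⟩ := ha
            exact mem_biUnion.mpr ⟨b, hb, mem_sdiff.mpr ⟨hca, hcL⟩⟩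
      have h3 := (card_le_card h2).trans (card_union_le _ _)
      omega)
  have hXne : X.Nonempty := by
    rw [nonempty_iff_ne_empty]
    rintro rfl
    simp at hXv
  have hXcard : X.card ≤ n + q := by
    refine (card_le_univ X).trans ?_
    rw [Fintype.card_sum, Fintype.card_fin]
  have hLXge : q + j ≤ LX.card := by
    obtain ⟨a, ha⟩ := hXne
    exact (hL a).trans (card_le_card (subset_biUnion_of_mem L ha))
  -- common colours
  set I := LX.filter (fun c => ∀ v, Sum.inl v ∈ X → c ∈ L (Sum.inl v)) with hI
  have hIcard : j ≤ I.card := by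
    have h1 : LX \ I ⊆ (univ.filter fun v : V => Sum.inl v ∈ X).biUnion
        (fun v => LX \ L (Sum.inl v)) := by
      intro c hc
      rw [mem_sdiff, hI, mem_filter, not_and] at hc
      have h2 := hc.2 hc.1
      push Not at h2
      obtain ⟨v, hv1, hv2⟩ := h2
      exact mem_biUnion.mpr ⟨v, mem_filter.mpr ⟨mem_univ _, hv1⟩, mem_sdiff.mpr ⟨hc.1, hv2⟩⟩
    have h2 : (LX \ I).card ≤ n * (LX.card - (q + j)) := by
      refine (card_le_card h1).trans (card_biUnion_le.trans ?_)
      have h3 : ∀ v ∈ (univ.filter fun v : V => Sum.inl v ∈ X),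
          (LX \ L (Sum.inl v)).card ≤ LX.card - (q + j) := by
        intro v hv
        rw [mem_filter] at hv
        rw [card_sdiff_of_subset (subset_biUnion_of_mem L hv.2), ← hLX]
        have := hL (Sum.inl v)
        omega
      refine (sum_le_sum h3).trans ?_
      rw [sum_const, smul_eq_mul]
      exact Nat.mul_le_mul_right _ (card_le_univ _)
    have h4 : (LX \ I).card + I.card = LX.card := card_sdiff_add_card_eq_card (filter_subset _ _)
    have h5 : n * (LX.card - (q + j)) ≤ n * n := Nat.mul_le_mul_left _ (by omega)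
    omega
  obtain ⟨I', hI'sub, hI'card⟩ := exists_subset_card_eq hIcard
  have hcolI : (col G (fun _ => I')).Nonempty := by
    rw [← card_pos, card_col_const, hI'card]
    exact hG
  obtain ⟨g, hg⟩ := hcolI
  rw [mem_col] at hg
  -- the clique vertices in `X`
  obtain ⟨k, hkinj, hk⟩ := (Finset.all_card_le_biUnion_card_iff_exists_injective
    (fun i : Fin q => L (Sum.inr i) \ I')).mp (by
      intro s
      rcases s.eq_empty_or_nonempty with rfl | ⟨i, hi⟩
      · simp
      · have h1 : s.card ≤ q := by
          have := card_le_univ s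
          rwa [Fintype.card_fin] at this
        have h2 : q ≤ (L (Sum.inr i) \ I').card := by
          have := le_card_sdiff I' (L (Sum.inr i))
          have := hL (Sum.inr i)
          omega
        exact h1.trans (h2.trans (card_le_card
          (subset_biUnion_of_mem (fun i : Fin q => L (Sum.inr i) \ I') hi))))
  let F : V ⊕ Fin q → C := fun a =>
    if h : a ∈ X then Sum.elim g k a else f2 ⟨a, h⟩
  have hFX : ∀ a ∈ X, F a = Sum.elim g k a := fun a ha => dif_pos ha
  have hFn : ∀ a (ha : a ∉ X), F a = f2 ⟨a, ha⟩ := fun a ha => dif_neg ha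
  have hinL : ∀ a ∈ X, Sum.elim g k a ∈ L a := by
    rintro (v | i) ha
    · have h1 := hI'sub (hg.1 v)
      rw [hI, mem_filter] at h1
      exact h1.2 v ha
    · exact (mem_sdiff.mp (hk i)).1
  refine ⟨F, mem_col.mpr ⟨?_, ?_⟩⟩
  · intro a
    by_cases ha : a ∈ X
    · rw [hFX a ha]
      exact hinL a ha
    · rw [hFn a ha]
      exact (mem_sdiff.mp (hf2 ⟨a, ha⟩)).1
  · intro a b hab heq
    by_cases ha : a ∈ X
    · by_cases hb : b ∈ X
      · rw [hFX a ha, hFX b hb] at heq
        rcases a with u | i <;> rcases b with v | i'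
        · exact hg.2 u v (by simpa using hab) heq
        · simp only [Sum.elim_inl, Sum.elim_inr] at heq
          exact (mem_sdiff.mp (hk i')).2 (heq ▸ hg.1 u)
        · simp only [Sum.elim_inl, Sum.elim_inr] at heq
          exact (mem_sdiff.mp (hk i)).2 (heq ▸ hg.1 v)
        · exact hab.ne (by rw [hkinj heq])
      · rw [hFX a ha, hFn b hb] at heq
        exact (mem_sdiff.mp (hf2 ⟨b, hb⟩)).2 (heq ▸ mem_biUnion.mpr ⟨a, ha, hinL a ha⟩)
    · by_cases hb : b ∈ X
      · rw [hFn a ha, hFX b hb] at heq
        exact (mem_sdiff.mp (hf2 ⟨a, ha⟩)).2 (heq ▸ mem_biUnion.mpr ⟨b, hb, hinL b hb⟩)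
      · rw [hFn a ha, hFn b hb] at heq
        have := hf2inj heq
        rw [Subtype.mk.injEq] at this
        exact hab.ne this

end

end Q127.ECC
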