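import Pool.Agent.Q127.ECC.Join

/-!
# Joins with large cliques: a fixed number of extra colours
-/

set_option autoImplicit false

namespace Q127.ECC

open Finset

section
variable {V : Type*} [Fintype V]

theorem Pj_join_ge (G : SimpleGraph V) (j b : ℕ) :
    ((j + b).descFactorial b : ℚ) * Pj G j ≤
      (Pj (join G (⊤ : SimpleGraph (Fin b))) (j + b) : ℚ) := by
  classical
  have h1 := card_col_join G b (fun _ => (univ : Finset (Fin (j + b)))) ∅
  simp only [sdiff_empty] at h1
  unfold Pj at *
  rw [h1]
  have h2 := T_greedy (List.ofFn fun _ : Fin b => (univ : Finset (Fin (j + b))))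
    (fun W => ((col G (fun _ => univ \ W)).card : ℚ)) ∅ (j + b) (Pj G j) (Nat.cast_nonneg _)
    (by
      intro A hA
      rw [List.mem_ofFn] at hA
      obtain ⟨_, rfl⟩ := hA
      simp) ?_
  · rw [List.length_ofFn] at h2
    exact h2
  · intro W _ hW
    rw [card_empty, zero_add, List.length_ofFn] at hW
    rw [card_col_const, card_sdiff_of_subset (subset_univ W), hW, card_univ, Fintype.card_fin,
      Nat.add_sub_cancel]

variable {C : Type*} [DecidableEq C]

theorem T_exc (G : SimpleGraph V) (L : V → Finset C) (exc : List (Finset C)) (W : Finset C) :
    T exc (fun W => ((col G (fun v => L v \ W)).card : ℚ)) W =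
      ((col (join G (⊤ : SimpleGraph (Fin exc.length)))
        (fun a => (Sum.elim L exc.get a) \ W)).card : ℚ) := by
  rw [card_col_join]
  simp only [Sum.elim_inr, Sum.elim_inl]
  rw [List.ofFn_get]

theorem main_j (G : SimpleGraph V) (j : ℕ) : ∃ p0 : ℕ, ∀ p, p0 ≤ p →
    ∀ (L : V ⊕ Fin p → Finset C), (∀ a, (L a).card = p + j) →
      ((p + j).descFactorial p : ℚ) * Pj G j ≤
        ((col (join G (⊤ : SimpleGraph (Fin p))) L).card : ℚ) := by
  classical
  rcases Nat.eq_zero_or_pos (Pj G j) with hP0 | hPpos
  · refine ⟨0, fun p _ L _ => ?_⟩
    rw [hP0, Nat.cast_zero, mul_zero]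
    exact Nat.cast_nonneg _
  set n := Fintype.card V with hn
  set q0 := n * n with hq0
  set t := q0 + j with ht
  set K := Pj G j * (q0 + j).descFactorial q0 with hK
  set s := 9 * (t + 1) * K with hs
  set B := s + q0 with hB
  set beta := ∑ b ∈ range B, (n + b) * ((n + b) * (j + b)) * (j + b) *
    (Pj (join G (⊤ : SimpleGraph (Fin b))) (j + b) + 1) with hbeta
  refine ⟨beta + q0 + 4 * s + t + B + 1, fun p hp L hL => ?_⟩
  set N := p + j with hN
  set ws := List.ofFn (fun i => L (Sum.inr i)) with hws
  have hlen : ws.length = p := List.length_ofFn
  have hwsN : ∀ A ∈ ws, A.card = N := by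
    intro A hA
    rw [hws, List.mem_ofFn] at hA
    obtain ⟨i, rfl⟩ := hA
    exact hL _
  have hcount : ((col (join G (⊤ : SimpleGraph (Fin p))) L).card : ℚ)
      = T ws (fun W => ((col G (fun v => L (Sum.inl v) \ W)).card : ℚ)) ∅ := by
    have h1 := card_col_join G p L ∅
    simp only [sdiff_empty] at h1
    exact h1
  rw [hcount]
  by_cases hcase : ∃ S : Finset C, ws.countP (fun A => A ≠ S) < B
  · obtain ⟨S, hS⟩ := hcase
    set exc := ws.filter (fun A => A ≠ S) with hexc
    have hexclen : exc.length < B := by
      rwa [List.countP_eq_length_filter] at hS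
    have hperm : (ws.filter (fun A => A = S) ++ exc).Perm ws := by
      have := List.filter_append_perm (fun A : Finset C => decide (A = S)) ws
      convert this using 3
      simp
    have hmaj : ws.filter (fun A => A = S)
        = List.replicate (ws.filter (fun A => A = S)).length S := by
      rw [List.eq_replicate_iff]
      refine ⟨rfl, fun A hA => ?_⟩
      rw [List.mem_filter] at hA
      simpa using hA.2
    set p' := (ws.filter (fun A => A = S)).length with hp'
    rw [hmaj] at hperm
    have hlen2 := hperm.length_eq
    rw [List.length_append, List.length_replicate, hlen] at hlen2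
    have hScard : S.card = N := by
      refine hwsN S (hperm.subset (List.mem_append_left _ ?_))
      rw [List.mem_replicate]
      exact ⟨by omega, rfl⟩
    rw [← T_perm hperm, T_append]
    have hfun : T exc (fun W => ((col G (fun v => L (Sum.inl v) \ W)).card : ℚ))
        = fun W => ((col (join G (⊤ : SimpleGraph (Fin exc.length)))
        (fun a => (Sum.elim (fun v => L (Sum.inl v)) exc.get a) \ W)).card : ℚ) := by
      funext W
      exact T_exc G (fun v => L (Sum.inl v)) exc W
    rw [hfun]
    have hcardV : Fintype.card (V ⊕ Fin exc.length) = n + exc.length := by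
      rw [Fintype.card_sum, Fintype.card_fin]
    have hA := caseA (join G (⊤ : SimpleGraph (Fin exc.length))) (j + exc.length) p' N
      (by omega) S hScard (Sum.elim (fun v => L (Sum.inl v)) exc.get) (by
        rintro (v | i)
        · exact hL _
        · exact hwsN _ (hperm.subset (List.mem_append_right _ (List.get_mem exc i)))) (by
        rw [hcardV]
        have h1 : (n + exc.length) * ((n + exc.length) * (j + exc.length)) * (j + exc.length) *
            (Pj (join G (⊤ : SimpleGraph (Fin exc.length))) (j + exc.length) + 1) ≤ beta :=
          single_le_sum (f := fun b => (n + b) * ((n + b) * (j + b)) * (j + b) *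
            (Pj (join G (⊤ : SimpleGraph (Fin b))) (j + b) + 1)) (fun _ _ => Nat.zero_le _)
            (mem_range.mpr hexclen)
        omega)
    refine le_trans ?_ hA
    have h2 := Pj_join_ge G j exc.length
    have h3 : (N.descFactorial p : ℚ)
        = (N.descFactorial p' : ℚ) * ((j + exc.length).descFactorial exc.length : ℚ) := by
      have := Nat.descFactorial_mul_descFactorial (n := N) (k := p') (m := p) (by omega)
      rw [show N - p' = j + exc.length by omega, show p - p' = exc.length by omega] at this
      rw [← this]
      push_cast
      ring
    rw [h3, mul_assoc]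
    exact mul_le_mul_of_nonneg_left h2 (Nat.cast_nonneg _)
  · push Not at hcase
    have hNeq : (ws.drop q0).length + t = N := by
      rw [List.length_drop, hlen]
      omega
    have hperm2 : (ws.drop q0 ++ ws.take q0).Perm ws := by
      refine List.perm_append_comm.trans ?_
      rw [List.take_append_drop]
    have hlen3 : (ws.take q0).length = q0 := by
      rw [List.length_take, hlen]
      omega
    have hg := gain (ws.drop q0) t s N
      (fun A hA => hwsN A (hperm2.subset (List.mem_append_left _ hA))) hNeq (by omega)
      (by omega) (by omega) (by
        intro S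
        have h1 := hcase S
        rw [← hperm2.countP_eq, List.countP_append] at h1
        have h2 : (ws.take q0).countP (fun A => A ≠ S) ≤ (ws.take q0).length :=
          List.countP_le_length
        omega)
    rw [← T_perm hperm2, T_append]
    set Sall : Finset C := univ.biUnion (fun i => L (Sum.inr i)) with hSall
    have hmono := T_mono (ws.drop q0) (fun _ => (1 : ℚ))
      (T (ws.take q0) (fun W => ((col G (fun v => L (Sum.inl v) \ W)).card : ℚ))) Sall ∅
      (by
        intro A hA
        have h1 := hperm2.subset (List.mem_append_left _ hA)
        rw [hws, List.mem_ofFn] at h1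
        obtain ⟨i, rfl⟩ := h1
        exact subset_biUnion_of_mem (fun i => L (Sum.inr i)) (mem_univ i)) (empty_subset _)
      (by
        intro W _ _ hW
        rw [card_empty, zero_add] at hW
        rw [T_exc G (fun v => L (Sum.inl v)) (ws.take q0) W]
        have h1 := exists_col_join G j (ws.take q0).length hPpos (by rw [hlen3])
          (fun a => (Sum.elim (fun v => L (Sum.inl v)) (ws.take q0).get a) \ W) (by
            intro a
            have h2 := le_card_sdiff W (Sum.elim (fun v => L (Sum.inl v)) (ws.take q0).get a)
            have h3 : (Sum.elim (fun v => L (Sum.inl v)) (ws.take q0).get a).card = N := by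
              rcases a with v | i
              · exact hL _
              · exact hwsN _ (hperm2.subset (List.mem_append_right _ (List.get_mem _ i)))
            omega)
        have h4 := card_pos.mpr h1
        exact_mod_cast h4)
    refine le_trans ?_ (hg.trans hmono)
    have h3 : (N.descFactorial p : ℚ)
        = (N.descFactorial (ws.drop q0).length : ℚ) * ((q0 + j).descFactorial q0 : ℚ) := by
      have := Nat.descFactorial_mul_descFactorial (n := N) (k := (ws.drop q0).length) (m := p)
        (by omega)
      rw [show N - (ws.drop q0).length = q0 + j by omega,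
        show p - (ws.drop q0).length = q0 by omega] at this
      rw [← this]
      push_cast
      ring
    rw [h3, mul_assoc]
    refine mul_le_mul_of_nonneg_left ?_ (Nat.cast_nonneg _)
    have h4 : (s : ℚ) / (9 * ((t : ℚ) + 1)) = K := by
      rw [hs]
      push_cast
      field_simp
    rw [h4, hK]
    push_cast
    linarith

end

end Q127.ECC
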