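import Mathlib

/-!
# The colouring functional of a clique

`T ws Ψ U` is the sum of `Ψ (U ∪ φ)` over all colourings `φ` of a clique with the lists in `ws`
by distinct colours outside `U`.
-/

set_option autoImplicit false

namespace Q127.ECC

open Finset

variable {C : Type*} [DecidableEq C]

/-- Sum over the colourings of a clique with lists `ws` avoiding `U`. -/
def T : List (Finset C) → (Finset C → ℚ) → Finset C → ℚ
  | [], Psi, U => Psi U
  | A :: ws, Psi, U => ∑ c ∈ A \ U, T ws Psi (insert c U)

@[simp] theorem T_nil (Psi : Finset C → ℚ) (U : Finset C) : T [] Psi U = Psi U := rfl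

theorem T_cons (A : Finset C) (ws : List (Finset C)) (Psi : Finset C → ℚ) (U : Finset C) :
    T (A :: ws) Psi U = ∑ c ∈ A \ U, T ws Psi (insert c U) := rfl

theorem T_append (ws ws' : List (Finset C)) (Psi : Finset C → ℚ) (U : Finset C) :
    T (ws ++ ws') Psi U = T ws (T ws' Psi) U := by
  induction ws generalizing U with
  | nil => rfl
  | cons A ws ih =>
    rw [List.cons_append, T_cons, T_cons]
    exact sum_congr rfl fun c _ => ih _

theorem T_swap (A B : Finset C) (F : Finset C → ℚ) (U : Finset C) :
    T [A, B] F U = T [B, A] F U := by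
  simp only [T_cons, T_nil]
  have key : ∀ (A B : Finset C), ∑ a ∈ A \ U, ∑ b ∈ B \ insert a U, F (insert b (insert a U))
      = ∑ a ∈ A \ U, ∑ b ∈ B \ U, if a ≠ b then F (insert b (insert a U)) else 0 := by
    intro A B
    refine sum_congr rfl fun a _ => ?_
    rw [← sum_filter]
    refine sum_congr ?_ fun _ _ => rfl
    ext b
    simp only [mem_sdiff, mem_insert, mem_filter, not_or]
    constructor
    · rintro ⟨h1, h2, h3⟩
      exact ⟨⟨h1, h3⟩, fun h => h2 h.symm⟩
    · rintro ⟨⟨h1, h2⟩, h3⟩
      exact ⟨h1, fun h => h3 h.symm, h2⟩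
  rw [key A B, key B A, sum_comm]
  refine sum_congr rfl fun b _ => sum_congr rfl fun a _ => ?_
  by_cases h : a = b
  · simp [h]
  · rw [if_pos h, if_pos (fun h' => h h'.symm), Finset.insert_comm]

theorem T_perm {ws ws' : List (Finset C)} (h : ws.Perm ws') (Psi : Finset C → ℚ)
    (U : Finset C) : T ws Psi U = T ws' Psi U := by
  induction h generalizing U with
  | nil => rfl
  | cons A _ ih =>
    rw [T_cons, T_cons]
    exact sum_congr rfl fun c _ => ih _
  | swap A B l =>
    have h1 : ∀ X Y : Finset C, T (X :: Y :: l) Psi U = T [X, Y] (T l Psi) U := fun X Y =>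
      T_append [X, Y] l Psi U
    rw [h1, h1]
    exact T_swap _ _ _ _
  | trans _ _ ih1 ih2 => rw [ih1, ih2]

/-- Monotonicity, with the information on the reachable sets. -/
theorem T_mono (ws : List (Finset C)) (Psi Psi' : Finset C → ℚ) (S U : Finset C)
    (hws : ∀ A ∈ ws, A ⊆ S) (hU : U ⊆ S)
    (h : ∀ W, U ⊆ W → W ⊆ S → W.card = U.card + ws.length → Psi W ≤ Psi' W) :
    T ws Psi U ≤ T ws Psi' U := by
  induction ws generalizing U with
  | nil => exact h U Subset.rfl hU rfl
  | cons A ws ih =>
    rw [T_cons, T_cons]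
    refine sum_le_sum fun c hc => ?_
    rw [mem_sdiff] at hc
    refine ih (insert c U) (fun B hB => hws B (List.mem_cons_of_mem _ hB)) ?_ ?_
    · exact insert_subset (hws A List.mem_cons_self hc.1) hU
    · intro W h1 h2 h3
      refine h W ((subset_insert c U).trans h1) h2 ?_
      rw [h3, card_insert_of_notMem hc.2, List.length_cons]
      omega

theorem T_add (ws : List (Finset C)) (Psi Psi' : Finset C → ℚ) (U : Finset C) :
    T ws (fun W => Psi W + Psi' W) U = T ws Psi U + T ws Psi' U := by
  induction ws generalizing U with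
  | nil => rfl
  | cons A ws ih =>
    rw [T_cons, T_cons, T_cons, ← sum_add_distrib]
    exact sum_congr rfl fun c _ => ih _

theorem T_mul (ws : List (Finset C)) (a : ℚ) (Psi : Finset C → ℚ) (U : Finset C) :
    T ws (fun W => a * Psi W) U = a * T ws Psi U := by
  induction ws generalizing U with
  | nil => rfl
  | cons A ws ih =>
    rw [T_cons, T_cons, mul_sum]
    exact sum_congr rfl fun c _ => ih _

theorem T_sum {ι : Type*} (s : Finset ι) (ws : List (Finset C)) (Psi : ι → Finset C → ℚ)
    (U : Finset C) : T ws (fun W => ∑ i ∈ s, Psi i W) U = ∑ i ∈ s, T ws (Psi i) U := by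
  induction ws generalizing U with
  | nil => rfl
  | cons A ws ih =>
    simp only [T_cons]
    rw [sum_comm]
    exact sum_congr rfl fun c _ => ih _

/-- The greedy lower bound. -/
theorem T_greedy (ws : List (Finset C)) (Psi : Finset C → ℚ) (U : Finset C) (M : ℕ) (kap : ℚ)
    (hk : 0 ≤ kap) (hws : ∀ A ∈ ws, M ≤ (A \ U).card)
    (h : ∀ W, U ⊆ W → W.card = U.card + ws.length → kap ≤ Psi W) :
    (M.descFactorial ws.length : ℚ) * kap ≤ T ws Psi U := by
  induction ws generalizing U M with
  | nil => simpa using h U Subset.rfl rfl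
  | cons A ws ih =>
    rw [T_cons]
    have h1 : ∀ c ∈ A \ U, ((M - 1).descFactorial ws.length : ℚ) * kap ≤
        T ws Psi (insert c U) := by
      intro c hc
      have hcU := (mem_sdiff.mp hc).2
      refine ih (insert c U) (M - 1) ?_ ?_
      · intro B hB
        have h2 := hws B (List.mem_cons_of_mem _ hB)
        have h3 : (B \ U) \ {c} ⊆ B \ insert c U := by
          intro x hx
          simp only [mem_sdiff, mem_singleton, mem_insert, not_or] at hx ⊢
          exact ⟨hx.1.1, hx.2, hx.1.2⟩
        have h4 := card_le_card h3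
        have h5 := le_card_sdiff {c} (B \ U)
        rw [card_singleton] at h5
        omega
      · intro W h2 h3
        refine h W ((subset_insert c U).trans h2) ?_
        rw [h3, card_insert_of_notMem hcU, List.length_cons]
        omega
    have h2 := card_nsmul_le_sum _ _ _ h1
    rw [nsmul_eq_mul] at h2
    refine le_trans ?_ h2
    have h3 := hws A List.mem_cons_self
    rw [List.length_cons]
    rcases Nat.eq_zero_or_pos M with h0 | h0
    · subst h0
      rw [Nat.zero_descFactorial_succ, Nat.cast_zero, zero_mul]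
      positivity
    · obtain ⟨M', rfl⟩ : ∃ M', M = M' + 1 := ⟨M - 1, by omega⟩
      rw [Nat.succ_descFactorial_succ, Nat.cast_mul, mul_assoc]
      refine mul_le_mul_of_nonneg_right ?_ (by positivity)
      exact_mod_cast h3

theorem T_nonneg (ws : List (Finset C)) (Psi : Finset C → ℚ) (U : Finset C)
    (h : ∀ W, 0 ≤ Psi W) : 0 ≤ T ws Psi U := by
  have := T_greedy ws Psi U 0 0 le_rfl (fun A _ => Nat.zero_le _) (fun W _ _ => h W)
  simpa using this

end Q127.ECC
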